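import Mathlib

/-! # The sum of `log p / p ^ x` over the primes, for `1 < x ≤ 2` -/

set_option autoImplicit false

namespace Pool.Agent.K1H79.TOR

open ArithmeticFunction ArithmeticFunction.vonMangoldt Complex

/-- the weight of a prime -/
noncomputable def wt (x : ℝ) (n : ℕ) : ℝ := if n.Prime then Real.log n / (n : ℝ) ^ x else 0

theorem wt_nonneg (x : ℝ) (n : ℕ) : 0 ≤ wt x n := by
  unfold wt
  split_ifs
  · exact div_nonneg (Real.log_natCast_nonneg n) (by positivity)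
  · exact le_rfl

theorem rc_eq (n : ℕ) : residueClass (1 : ZMod 1) n = vonMangoldt n := by
  unfold residueClass
  rw [Set.indicator_of_mem]
  show ((n : ℕ) : ZMod 1) = 1
  exact Subsingleton.elim _ _

theorem wt_bound : ∃ C : ℝ, 1 ≤ C ∧ ∀ x : ℝ, 1 < x → x ≤ 2 → Summable (wt x) ∧
    1 / (x - 1) - C ≤ ∑' n, wt x n ∧ ∑' n, wt x n ≤ 1 / (x - 1) + C := by
  have ha : IsUnit (1 : ZMod 1) := isUnit_one
  have H {x : ℝ} (hx : 1 < x) :
      ∑' n, residueClass (1 : ZMod 1) n / (n : ℝ) ^ x =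
        (LFunctionResidueClassAux (1 : ZMod 1) x).re + 1 / (x - 1) := by
    refine ofReal_injective ?_
    have h1 := eqOn_LFunctionResidueClassAux ha <| Set.mem_ofPred.mpr (ofReal_re x ▸ hx)
    have h2 := LFunctionResidueClassAux_real ha hx
    simp only [ofReal_tsum, ofReal_div, ofReal_cpow (Nat.cast_nonneg _), ofReal_natCast,
      ofReal_add, ofReal_sub, ofReal_one]
    simp_rw [← h2, h1, LSeries, LSeries.term]
    have e : ((Nat.totient 1 : ℕ) : ℂ)⁻¹ = 1 := by simp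
    rw [e, sub_add_cancel]
    refine tsum_congr fun n ↦ ?_
    split_ifs with hn
    · simp only [hn, residueClass_apply_zero, ofReal_zero, zero_div]
    · rfl
  have hcont : ContinuousOn (fun x : ℝ ↦ (LFunctionResidueClassAux (1 : ZMod 1) x).re) (Set.Icc 1 2) :=
    continuous_re.continuousOn.comp (t := Set.univ) (continuousOn_LFunctionResidueClassAux (1 : ZMod 1))
      (fun ⦃x⦄ a ↦ trivial) |>.comp continuous_ofReal.continuousOn fun x hx ↦ by
        simpa only [Set.mem_ofPred_eq, ofReal_re] using hx.1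
  obtain ⟨C, hC⟩ := isCompact_Icc.exists_bound_of_continuousOn hcont
  have hsr := summable_residueClass_non_primes_div (1 : ZMod 1)
  obtain ⟨R, hR⟩ : ∃ R : ℝ, R = ∑' n : ℕ, (if n.Prime then 0 else residueClass (1 : ZMod 1) n) / (n : ℝ) :=
    ⟨_, rfl⟩
  have hrnn : ∀ n : ℕ, 0 ≤ (if n.Prime then 0 else residueClass (1 : ZMod 1) n) / (n : ℝ) := by
    intro n
    refine div_nonneg ?_ (by positivity)
    split_ifs
    · exact le_rfl
    · exact residueClass_nonneg _ n
  have hR0 : 0 ≤ R := by rw [hR]; exact tsum_nonneg hrnn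
  refine ⟨|C| + R + 1, by linarith [abs_nonneg C], fun x hx hx2 => ?_⟩
  have hs : Summable fun n : ℕ => residueClass (1 : ZMod 1) n / (n : ℝ) ^ x :=
    LSeries.summable_real_of_abscissaOfAbsConv_lt <|
      (abscissaOfAbsConv_residueClass_le_one (1 : ZMod 1)).trans_lt <| mod_cast hx
  have hrle : ∀ n : ℕ, (if n.Prime then 0 else residueClass (1 : ZMod 1) n) / (n : ℝ) ^ x ≤
      (if n.Prime then 0 else residueClass (1 : ZMod 1) n) / (n : ℝ) := by
    intro n
    rcases n.eq_zero_or_pos with rfl | hn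
    · simp
    · have h0 : 0 ≤ (if n.Prime then 0 else residueClass (1 : ZMod 1) n) := by
        split_ifs
        · exact le_rfl
        · exact residueClass_nonneg _ n
      refine div_le_div_of_nonneg_left h0 (mod_cast hn) ?_
      conv_lhs => rw [← Real.rpow_one n]
      exact Real.rpow_le_rpow_of_exponent_le (by norm_cast) hx.le
  have hr0 : ∀ n : ℕ, 0 ≤ (if n.Prime then 0 else residueClass (1 : ZMod 1) n) / (n : ℝ) ^ x := by
    intro n
    refine div_nonneg ?_ (by positivity)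
    split_ifs
    · exact le_rfl
    · exact residueClass_nonneg _ n
  have hrs : Summable fun n : ℕ => (if n.Prime then 0 else residueClass (1 : ZMod 1) n) / (n : ℝ) ^ x :=
    Summable.of_nonneg_of_le hr0 hrle hsr
  have hw : ∀ n : ℕ, wt x n = residueClass (1 : ZMod 1) n / (n : ℝ) ^ x -
      (if n.Prime then 0 else residueClass (1 : ZMod 1) n) / (n : ℝ) ^ x := by
    intro n
    unfold wt
    split_ifs with hn
    · rw [rc_eq, vonMangoldt_apply_prime hn, zero_div, sub_zero]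
    · rw [sub_self]
  have hws : Summable (wt x) := by
    refine (hs.sub hrs).congr fun n => ?_
    rw [hw]
  have hsum : ∑' n, wt x n = ∑' n, residueClass (1 : ZMod 1) n / (n : ℝ) ^ x -
      ∑' n : ℕ, (if n.Prime then 0 else residueClass (1 : ZMod 1) n) / (n : ℝ) ^ x := by
    rw [← hs.tsum_sub hrs]
    exact tsum_congr hw
  have h1 : ∑' n : ℕ, (if n.Prime then 0 else residueClass (1 : ZMod 1) n) / (n : ℝ) ^ x ≤ R := by
    rw [hR]
    exact hrs.tsum_le_tsum hrle hsr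
  have h2 : 0 ≤ ∑' n : ℕ, (if n.Prime then 0 else residueClass (1 : ZMod 1) n) / (n : ℝ) ^ x :=
    tsum_nonneg hr0
  have h3 := hC x ⟨hx.le, hx2⟩
  rw [Real.norm_eq_abs, abs_le] at h3
  have h4 := le_abs_self C
  rw [H hx] at hsum
  refine ⟨hws, ?_, ?_⟩ <;> rw [hsum] <;> linarith

theorem exp3 : Real.exp (-3) ≤ 1 / 20 := by
  have h1 : (2.7182818283 : ℝ) < Real.exp 1 := Real.exp_one_gt_d9
  have h2 : (20 : ℝ) ≤ Real.exp 3 := by
    have h3 : Real.exp 3 = Real.exp 1 ^ 3 := by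
      rw [← Real.exp_nat_mul]; norm_num
    rw [h3]
    have h4 : (2.7182818283 : ℝ) ^ 3 ≤ Real.exp 1 ^ 3 := by gcongr
    refine le_trans ?_ h4
    norm_num
  rw [Real.exp_neg, inv_eq_one_div]
  exact one_div_le_one_div_of_le (by norm_num) h2

/-- the sum over the primes up to `X` at `x = 1 + 6 / log X` -/
theorem head : ∃ C : ℝ, 1 ≤ C ∧ ∀ X : ℝ, 1 < X → 6 ≤ Real.log X →
    Real.log X * (3 / 20) - C ≤
      ∑ p ∈ (Finset.range (⌊X⌋₊ + 1)).filter Nat.Prime, wt (1 + 6 / Real.log X) p := by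
  obtain ⟨C, hC1, hC⟩ := wt_bound
  refine ⟨2 * C, by linarith, fun X hX1 hX => ?_⟩
  have hX0 : 0 < X := by linarith
  set l := Real.log X with hl
  have hl0 : 0 < l := by linarith
  have q1 : 0 < 6 / l := by positivity
  have q2 : 6 / l ≤ 1 := by rw [div_le_one hl0]; exact hX
  have q3 : 0 < 3 / l := by positivity
  have q4 : 3 / l ≤ 1 := by rw [div_le_one hl0]; linarith
  obtain ⟨hs, h1, -⟩ := hC (1 + 6 / l) (by linarith) (by linarith)
  obtain ⟨hs', -, h2⟩ := hC (1 + 3 / l) (by linarith) (by linarith)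
  have e1 : 1 / (1 + 6 / l - 1) = l / 6 := by
    rw [add_sub_cancel_left, one_div_div]
  have e2 : 1 / (1 + 3 / l - 1) = l / 3 := by
    rw [add_sub_cancel_left, one_div_div]
  rw [e1] at h1
  rw [e2] at h2
  have hsplit := hs.sum_add_tsum_compl (s := Finset.range (⌊X⌋₊ + 1))
  have htail : ∑' n : ↑((Finset.range (⌊X⌋₊ + 1) : Finset ℕ) : Set ℕ)ᶜ, wt (1 + 6 / l) n ≤
      Real.exp (-3) * ∑' n, wt (1 + 3 / l) n := by
    rw [← tsum_mul_left]
    have hs2 : Summable fun n : ℕ => Real.exp (-3) * wt (1 + 3 / l) n := hs'.mul_left _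
    refine le_trans ?_ (Summable.tsum_subtype_le (fun n : ℕ => Real.exp (-3) * wt (1 + 3 / l) n)
      ((Finset.range (⌊X⌋₊ + 1) : Finset ℕ) : Set ℕ)ᶜ (fun n => mul_nonneg (Real.exp_pos _).le (wt_nonneg _ _)) hs2)
    refine Summable.tsum_le_tsum (fun n => ?_) (hs.subtype _) (hs2.subtype _)
    have hn : X ≤ (n : ℕ) := by
      have h3 := n.2
      rw [Set.mem_compl_iff, Finset.mem_coe, Finset.mem_range, not_lt] at h3
      have h4 := Nat.lt_floor_add_one X
      have h5 : ((⌊X⌋₊ + 1 : ℕ) : ℝ) ≤ (n : ℕ) := by exact_mod_cast h3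
      push_cast at h5
      linarith
    have hn0 : (0 : ℝ) < (n : ℕ) := by linarith
    show wt (1 + 6 / l) n ≤ Real.exp (-3) * wt (1 + 3 / l) n
    unfold wt
    split_ifs
    · have e3 : ((n : ℕ) : ℝ) ^ (1 + 6 / l) = ((n : ℕ) : ℝ) ^ (1 + 3 / l) * ((n : ℕ) : ℝ) ^ (3 / l) := by
        rw [← Real.rpow_add hn0]
        congr 1
        ring
      have e4 : Real.exp 3 ≤ ((n : ℕ) : ℝ) ^ (3 / l) := by
        have h6 : X ^ (3 / l) = Real.exp 3 := by
          rw [Real.rpow_def_of_pos hX0, ← hl]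
          congr 1
          field_simp
        rw [← h6]
        exact Real.rpow_le_rpow hX0.le hn (by positivity)
      rw [e3]
      have h7 : 0 ≤ Real.log (n : ℕ) := Real.log_natCast_nonneg _
      have h8 : 0 < ((n : ℕ) : ℝ) ^ (1 + 3 / l) := Real.rpow_pos_of_pos hn0 _
      rw [Real.exp_neg, ← div_eq_inv_mul, div_div]
      gcongr
    · rw [mul_zero]
  have hfil : ∑ p ∈ (Finset.range (⌊X⌋₊ + 1)).filter Nat.Prime, wt (1 + 6 / l) p =
      ∑ n ∈ Finset.range (⌊X⌋₊ + 1), wt (1 + 6 / l) n := by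
    rw [Finset.sum_filter]
    refine Finset.sum_congr rfl fun n _ => ?_
    unfold wt
    split_ifs <;> rfl
  rw [hfil]
  have h9 := exp3
  have h10 : 0 ≤ ∑' n, wt (1 + 3 / l) n := tsum_nonneg fun n => wt_nonneg _ n
  have h11 : Real.exp (-3) * ∑' n, wt (1 + 3 / l) n ≤ 1 / 20 * (l / 3 + C) := by
    calc Real.exp (-3) * ∑' n, wt (1 + 3 / l) n ≤ 1 / 20 * ∑' n, wt (1 + 3 / l) n := by gcongr
      _ ≤ _ := by gcongr
  linarith

/-- the sum over the primes up to `Y` is at most `3 log Y + C` -/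
theorem small : ∃ C : ℝ, 1 ≤ C ∧ ∀ Y : ℝ, 1 < Y → 1 ≤ Real.log Y → ∀ x : ℝ, 1 ≤ x →
    ∑ p ∈ (Finset.range (⌊Y⌋₊ + 1)).filter Nat.Prime, wt x p ≤ 2.72 * Real.log Y + C := by
  obtain ⟨C, hC1, hC⟩ := wt_bound
  refine ⟨3 * C, by linarith, fun Y hY1 hY x hx => ?_⟩
  have hY0 : 0 < Y := by linarith
  set l := Real.log Y with hl
  have hl0 : 0 < l := by linarith
  have q1 : 0 < 1 / l := by positivity
  have q2 : 1 / l ≤ 1 := by rw [div_le_one hl0]; exact hY
  obtain ⟨hs, -, h1⟩ := hC (1 + 1 / l) (by linarith) (by linarith)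
  have e1 : 1 / (1 + 1 / l - 1) = l := by
    rw [add_sub_cancel_left, one_div_div, div_one]
  rw [e1] at h1
  have h2 : ∑ p ∈ (Finset.range (⌊Y⌋₊ + 1)).filter Nat.Prime, wt x p ≤
      Real.exp 1 * ∑ p ∈ (Finset.range (⌊Y⌋₊ + 1)).filter Nat.Prime, wt (1 + 1 / l) p := by
    rw [Finset.mul_sum]
    refine Finset.sum_le_sum fun p hp => ?_
    rw [Finset.mem_filter, Finset.mem_range] at hp
    have hp1 : (1 : ℝ) < p := by exact_mod_cast hp.2.one_lt
    have hp0 : (0 : ℝ) < p := by linarith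
    have hpY : (p : ℝ) ≤ Y := by
      have : p ≤ ⌊Y⌋₊ := by omega
      exact (Nat.le_floor_iff hY0.le).1 this
    unfold wt
    rw [if_pos hp.2, if_pos hp.2]
    have h3 : (p : ℝ) ^ (1 + 1 / l) ≤ Real.exp 1 * (p : ℝ) ^ x := by
      rw [Real.rpow_add hp0, Real.rpow_one, mul_comm]
      have h4 : (p : ℝ) ^ (1 / l) ≤ Real.exp 1 := by
        have h6 : Y ^ (1 / l) = Real.exp 1 := by
          rw [Real.rpow_def_of_pos hY0, ← hl]
          congr 1
          field_simp
        rw [← h6]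
        exact Real.rpow_le_rpow hp0.le hpY (by positivity)
      have h5 : (p : ℝ) ≤ (p : ℝ) ^ x := by
        conv_lhs => rw [← Real.rpow_one (p : ℝ)]
        exact Real.rpow_le_rpow_of_exponent_le hp1.le hx
      gcongr
    have h7 : 0 ≤ Real.log p := Real.log_nonneg hp1.le
    have h8 : 0 < (p : ℝ) ^ (1 + 1 / l) := Real.rpow_pos_of_pos hp0 _
    have h9 : 0 < (p : ℝ) ^ x := Real.rpow_pos_of_pos hp0 _
    rw [← mul_div_assoc, div_le_div_iff₀ h9 h8]
    nlinarith
  have h3 : ∑ p ∈ (Finset.range (⌊Y⌋₊ + 1)).filter Nat.Prime, wt (1 + 1 / l) p ≤ l + C :=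
    (hs.sum_le_tsum _ fun n _ => wt_nonneg _ n).trans h1
  have h4 : Real.exp 1 < 2.7182818286 := Real.exp_one_lt_d9
  have h5 : Real.exp 1 * ∑ p ∈ (Finset.range (⌊Y⌋₊ + 1)).filter Nat.Prime, wt (1 + 1 / l) p ≤
      Real.exp 1 * (l + C) := by gcongr
  nlinarith

end Pool.Agent.K1H79.TOR
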