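import Pool.Agent.R362.NearGen2
import Pool.Agent.K1H79.TOR.Ana0

/-! # Many primes which do not split in a number field -/

set_option autoImplicit false

namespace Pool.Agent.K1H79.TOR

open NumberField Pool.Agent.R362.Near Pool.Agent.R362.HL Pool.Agent.Y773

/-- the prime ideals and the discriminant (from the functional equation and the Hadamard product) -/
theorem prime_sum {F : Type} [Field F] [NumberField F] {x : ℝ} (hx : 1 < x) (hx3 : x ≤ 3)
    (S : Finset (Ideal (𝓞 F))) (hS : ∀ P ∈ S, Prime P) :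
    ∑ P ∈ S, Real.log (Ideal.absNorm P) * ((Ideal.absNorm P : ℕ) : ℝ) ^ (-x) ≤
      1 / (x - 1) + Real.log |(discr F : ℝ)| / 2 := by
  have h0 := LI_lower' (M := F) hx hx3
  have hlgd : lgd F = Real.log |(discr F : ℝ)| := by
    unfold lgd
    congr 1
    rw [Nat.cast_natAbs]
    push_cast
    rfl
  rw [hlgd] at h0
  refine le_trans ?_ h0
  have h2 : 1 < ((x : ℝ) : ℂ).re := by rw [Complex.ofReal_re]; exact hx
  obtain ⟨A', hA', hd⟩ := Pool.Agent.Y772.DK.t_dirK F
  have key : logDeriv (LI (triv F)) (x : ℂ) =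
      -(-(deriv (Pool.Agent.Y772.DK.LA (Pool.Agent.Y772.DK.ee (triv F))) (x : ℂ))) := by
    rw [neg_neg, logDeriv_apply, Pool.Agent.Y772.DK.deriv_LI (triv F) triv_norm h2, mul_div_assoc,
      div_self ((hd (triv F) triv_norm).2.2.1 _ h2), mul_one]
  have e2 := Complex.hasSum_re (Pool.Agent.Y772.DK.D_hasSum (triv F) triv_norm h2)
  rw [key, Complex.neg_re, neg_neg]
  have hterm : ∀ 𝔞 : Ideal (𝓞 F), 𝔞 ≠ ⊥ →
      ((VM 𝔞 : ℂ) * triv F 𝔞 * ((Ideal.absNorm 𝔞 : ℕ) : ℂ) ^ (-(x : ℂ))).re =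
        VM 𝔞 * ((Ideal.absNorm 𝔞 : ℕ) : ℝ) ^ (-x) := by
    intro 𝔞 h𝔞
    have h3 : ((Ideal.absNorm 𝔞 : ℕ) : ℂ) ^ (-((x : ℝ) : ℂ)) = (((Ideal.absNorm 𝔞 : ℕ) : ℝ) ^ (-x) : ℝ) := by
      rw [Complex.ofReal_cpow (Nat.cast_nonneg _), Complex.ofReal_natCast, Complex.ofReal_neg]
    rw [triv_apply h𝔞, mul_one, h3, ← Complex.ofReal_mul, Complex.ofReal_re]
  refine le_trans (le_of_eq ?_) (sum_le_hasSum S (fun 𝔞 _ => ?_) e2)
  · refine Finset.sum_congr rfl fun P hP => ?_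
    have hP1 := hS P hP
    have h4 := hterm P hP1.ne_zero
    have h5 := Pool.Agent.Y772.DK.VM_pow hP1 one_ne_zero
    rw [pow_one] at h5
    rw [← h5]
    exact h4.symm
  · by_cases h𝔞 : 𝔞 = ⊥
    · rw [h𝔞, triv_bot]
      simp
    · have h4 := hterm 𝔞 h𝔞
      have h5 := Pool.Agent.Y772.DK.VM_nonneg 𝔞
      have h6 : 0 ≤ VM 𝔞 * ((Ideal.absNorm 𝔞 : ℕ) : ℝ) ^ (-x) := mul_nonneg h5 (by positivity)
      rw [← h4] at h6
      exact h6

/-- a set of primes `p`, each the norm of at least two prime ideals -/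
theorem two_sum {F : Type} [Field F] [NumberField F] {x : ℝ} (hx : 1 < x) (hx3 : x ≤ 3)
    (T : Finset ℕ) (hT : ∀ p ∈ T, p.Prime ∧ ∃ S : Finset (Ideal (𝓞 F)), 2 ≤ S.card ∧
      ∀ Q ∈ S, Q.IsPrime ∧ Ideal.absNorm Q = p) :
    2 * ∑ p ∈ T, wt x p ≤ 1 / (x - 1) + Real.log |(discr F : ℝ)| / 2 := by
  classical
  choose! hp S hS using hT
  have hdis : (T : Set ℕ).PairwiseDisjoint S := by
    intro p hpT q hqT hpq
    rw [Function.onFun, Finset.disjoint_left]
    intro Q hQ hQ'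
    exact hpq (((hS p hpT).2 Q hQ).2.symm.trans ((hS q hqT).2 Q hQ').2)
  have h1 := prime_sum hx hx3 (T.biUnion S) (by
    intro P hP
    rw [Finset.mem_biUnion] at hP
    obtain ⟨p, hpT, hP⟩ := hP
    obtain ⟨h2, h3⟩ := (hS p hpT).2 P hP
    refine Ideal.prime_of_isPrime ?_ h2
    rintro rfl
    rw [Ideal.absNorm_bot] at h3
    exact (hp p hpT).ne_zero h3.symm)
  rw [Finset.sum_biUnion hdis] at h1
  refine le_trans ?_ h1
  rw [Finset.mul_sum]
  refine Finset.sum_le_sum fun p hpT => ?_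
  have h4 : ∑ P ∈ S p, Real.log (Ideal.absNorm P) * ((Ideal.absNorm P : ℕ) : ℝ) ^ (-x) =
      (S p).card * wt x p := by
    rw [Finset.sum_congr rfl (g := fun _ => wt x p) fun P hP => ?_, Finset.sum_const, nsmul_eq_mul]
    rw [((hS p hpT).2 P hP).2]
    unfold wt
    rw [if_pos (hp p hpT), Real.rpow_neg (Nat.cast_nonneg _), ← div_eq_mul_inv]
  rw [h4]
  have h5 : (2 : ℝ) ≤ (S p).card := by exact_mod_cast (hS p hpT).1
  have := wt_nonneg x p
  gcongr

/-- many primes are not the norm of two prime ideals -/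
theorem many : ∃ A : ℝ, 1 ≤ A ∧ ∀ (F : Type) [Field F] [NumberField F] (X : ℝ),
    1 < X → A * (1 + Real.log |(discr F : ℝ)|) ≤ Real.log X → ∀ B : Finset ℕ,
    (∀ p : ℕ, p.Prime → (p : ℝ) ≤ X → p ∉ B → ∃ S : Finset (Ideal (𝓞 F)), 2 ≤ S.card ∧
      ∀ Q ∈ S, Q.IsPrime ∧ Ideal.absNorm Q = p) → X ^ (1 / 200 : ℝ) ≤ B.card := by
  obtain ⟨C1, hC11, hC1⟩ := head
  obtain ⟨C2, hC21, hC2⟩ := small
  refine ⟨1000 + 60 * (C1 + C2), by linarith, fun F _ _ X hX1 hX B hB => ?_⟩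
  set l := Real.log X with hl
  set D := Real.log |(discr F : ℝ)| with hD
  have hD0 : 0 ≤ D := by
    refine Real.log_nonneg ?_
    have h1 : (1 : ℤ) ≤ |discr F| := Int.one_le_abs (discr_ne_zero F)
    exact_mod_cast h1
  have hX0 : 0 < X := by linarith
  have hl1000 : 1000 + 60 * (C1 + C2) + 1000 * D ≤ l := by nlinarith
  have hl0 : 0 < l := by linarith
  set x := 1 + 6 / l with hx
  have q1 : 0 < 6 / l := by positivity
  have q2 : 6 / l ≤ 1 := by rw [div_le_one hl0]; linarith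
  set U := (Finset.range (⌊X⌋₊ + 1)).filter Nat.Prime with hU
  have hUm : ∀ p ∈ U, p.Prime ∧ (p : ℝ) ≤ X := by
    intro p hp
    rw [hU, Finset.mem_filter, Finset.mem_range] at hp
    refine ⟨hp.2, ?_⟩
    have : p ≤ ⌊X⌋₊ := by omega
    exact (Nat.le_floor_iff hX0.le).1 this
  have h1 := hC1 X hX1 (by linarith)
  rw [← hl, ← hx, ← hU] at h1
  classical
  have h2 := two_sum (F := F) (x := x) (by linarith) (by linarith) (U.filter (fun p => p ∉ B)) (by
    intro p hp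
    rw [Finset.mem_filter] at hp
    obtain ⟨h3, h4⟩ := hUm p hp.1
    exact ⟨h3, hB p h3 h4 hp.2⟩)
  have e1 : 1 / (x - 1) = l / 6 := by
    rw [hx, add_sub_cancel_left, one_div_div]
  rw [e1, ← hD] at h2
  have h3 : ∑ p ∈ U, wt x p = ∑ p ∈ U.filter (fun p => p ∉ B), wt x p +
      ∑ p ∈ U.filter (fun p => ¬ p ∉ B), wt x p := (Finset.sum_filter_add_sum_filter_not _ _ _).symm
  -- the small primes
  set Y := X ^ (1 / 100 : ℝ) with hY
  have hlY : Real.log Y = l / 100 := by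
    rw [hY, Real.log_rpow hX0]; ring
  have hY1 : 1 < Y := Real.one_lt_rpow hX1 (by norm_num)
  have hY0 : 0 < Y := by linarith
  have h4 := hC2 Y hY1 (by rw [hlY]; linarith) x (by linarith)
  rw [hlY] at h4
  have h5 : ∑ p ∈ U.filter (fun p => ¬ p ∉ B), wt x p ≤
      ∑ p ∈ (Finset.range (⌊Y⌋₊ + 1)).filter Nat.Prime, wt x p + B.card * (l / Y) := by
    have h6 : U.filter (fun p => ¬ p ∉ B) ⊆ (Finset.range (⌊Y⌋₊ + 1)).filter Nat.Prime ∪
        (U.filter (fun p => p ∈ B ∧ Y < p)) := by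
      intro p hp
      rw [Finset.mem_filter, not_not] at hp
      rw [Finset.mem_union, Finset.mem_filter, Finset.mem_filter, Finset.mem_range]
      by_cases h7 : Y < p
      · exact Or.inr ⟨hp.1, hp.2, h7⟩
      · left
        push Not at h7
        exact ⟨Nat.lt_succ_of_le ((Nat.le_floor_iff hY0.le).2 h7), (hUm p hp.1).1⟩
    refine (Finset.sum_le_sum_of_subset_of_nonneg h6 fun p _ _ => wt_nonneg _ p).trans ?_
    have h8 := Finset.sum_union_inter (s₁ := (Finset.range (⌊Y⌋₊ + 1)).filter Nat.Prime)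
      (s₂ := U.filter (fun p => p ∈ B ∧ Y < p)) (f := wt x)
    have h9 : 0 ≤ ∑ p ∈ (Finset.range (⌊Y⌋₊ + 1)).filter Nat.Prime ∩ U.filter (fun p => p ∈ B ∧ Y < p), wt x p :=
      Finset.sum_nonneg fun p _ => wt_nonneg _ p
    have h10 : ∑ p ∈ U.filter (fun p => p ∈ B ∧ Y < p), wt x p ≤ B.card * (l / Y) := by
      have h11 : ∀ p ∈ U.filter (fun p => p ∈ B ∧ Y < p), wt x p ≤ l / Y := by
        intro p hp
        rw [Finset.mem_filter] at hp
        obtain ⟨h12, h13⟩ := hUm p hp.1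
        have hp1 : (1 : ℝ) < p := by exact_mod_cast h12.one_lt
        have hp0 : (0 : ℝ) < p := by linarith
        unfold wt
        rw [if_pos h12]
        have h14 : (p : ℝ) ≤ (p : ℝ) ^ x := by
          conv_lhs => rw [← Real.rpow_one (p : ℝ)]
          exact Real.rpow_le_rpow_of_exponent_le hp1.le (by linarith)
        have h15 : Real.log p ≤ l := by rw [hl]; exact Real.log_le_log hp0 h13
        exact div_le_div₀ hl0.le h15 hY0 (hp.2.2.le.trans h14)
      refine (Finset.sum_le_card_nsmul _ _ _ h11).trans ?_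
      rw [nsmul_eq_mul]
      have h16 : ((U.filter (fun p => p ∈ B ∧ Y < p)).card : ℝ) ≤ B.card := by
        have : U.filter (fun p => p ∈ B ∧ Y < p) ⊆ B := fun p hp => by
          rw [Finset.mem_filter] at hp
          exact hp.2.1
        exact_mod_cast Finset.card_le_card this
      have : 0 ≤ l / Y := by positivity
      gcongr
    linarith
  have h17 : Y / 60 ≤ B.card := by
    have h18 : l / 60 ≤ B.card * (l / Y) := by linarith
    have h19 : (B.card : ℝ) * (l / Y) = l * (B.card / Y) := by ring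
    rw [h19, div_eq_mul_inv] at h18
    have h20 := le_of_mul_le_mul_left h18 hl0
    rw [le_div_iff₀ hY0] at h20
    linarith
  refine le_trans ?_ h17
  have h21 : Y = X ^ (1 / 200 : ℝ) * X ^ (1 / 200 : ℝ) := by
    rw [hY, ← Real.rpow_add hX0]
    norm_num
  have h22 : (60 : ℝ) ≤ X ^ (1 / 200 : ℝ) := by
    rw [Real.rpow_def_of_pos hX0, ← hl]
    have h23 : (5 : ℝ) ≤ l * (1 / 200) := by linarith
    have h24 : Real.exp 5 ≤ Real.exp (l * (1 / 200)) := Real.exp_le_exp.2 h23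
    refine le_trans ?_ h24
    have h1 : (2.7182818283 : ℝ) < Real.exp 1 := Real.exp_one_gt_d9
    have h3 : Real.exp 5 = Real.exp 1 ^ 5 := by
      rw [← Real.exp_nat_mul]; norm_num
    rw [h3]
    have h4 : (2.7182818283 : ℝ) ^ 5 ≤ Real.exp 1 ^ 5 := by gcongr
    refine le_trans ?_ h4
    norm_num
  have h25 : 0 < X ^ (1 / 200 : ℝ) := by positivity
  rw [h21]
  nlinarith

end Pool.Agent.K1H79.TOR
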