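import Pool.Agent.K1H79.TOR.Scale
import Pool.Agent.K1H79.TOR.Ana1
import Pool.Agent.TH847.LG.EV
import Pool.Agent.Y159.PT.Ev

/-! # The power saving for torsion in the class groups of Galois number fields -/

set_option autoImplicit false

namespace Pool.Agent.K1H79.TOR

open NumberField Pool.Agent.TH847.LS Pool.Agent.TH847.LG

theorem omega_le {D : ℕ} (hD : D ≠ 0) : (D.primeFactors.card : ℝ) ≤ Real.log D / Real.log 2 := by
  have hl2 : 0 < Real.log 2 := Real.log_pos (by norm_num)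
  rw [le_div_iff₀ hl2]
  have h1 : 2 ^ D.primeFactors.card ≤ D := by
    calc 2 ^ D.primeFactors.card ≤ ∏ p ∈ D.primeFactors, p :=
          Finset.pow_card_le_prod _ _ _ fun p hp => (Nat.prime_of_mem_primeFactors hp).two_le
      _ ≤ D := Nat.le_of_dvd (Nat.pos_of_ne_zero hD) (Nat.prod_primeFactors_dvd D)
  have h2 : Real.log ((2 : ℝ) ^ D.primeFactors.card) ≤ Real.log D := by
    refine Real.log_le_log (by positivity) ?_
    exact_mod_cast h1
  rwa [Real.log_pow] at h2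

/-- the main theorem -/
theorem final (n l : ℕ) (hn2 : 2 ≤ n) (hl : 1 ≤ l) : ∃ δ C : ℝ, 0 < δ ∧ 0 < C ∧
    ∀ (L : Type) [Field L] [NumberField L] [IsGalois ℚ L], Module.finrank ℚ L = n →
    (∀ z ∈ Subgroup.center Gal(L/ℚ), (orderOf z).Prime → Subgroup.closure (Rts z) ≠ ⊤) →
    (Nat.card {c : ClassGroup (𝓞 L) // c ^ l = 1} : ℝ) ≤ C * |(discr L : ℝ)| ^ (1 / 2 - δ) := by
  obtain ⟨A, hA1, hA⟩ := many
  have hA' : Many A := hA
  have hnr : (2 : ℝ) ≤ n := by exact_mod_cast hn2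
  have hlr : (1 : ℝ) ≤ l := by exact_mod_cast hl
  -- the parameters
  obtain ⟨c, hc⟩ : ∃ c : ℝ, c = 3 * A * n ^ 2 := ⟨_, rfl⟩
  have hc1 : 1 ≤ c := by rw [hc]; nlinarith [mul_nonneg (by linarith : (0:ℝ) ≤ A) (sq_nonneg (n:ℝ))]
  obtain ⟨b, hb⟩ : ∃ b : ℝ, b = l * n * (1 + c) + 2 * n + 1 := ⟨_, rfl⟩
  have hb5 : 5 ≤ b := by
    rw [hb]
    have : 0 ≤ (l : ℝ) * n * (1 + c) := by positivity
    linarith
  obtain ⟨M, hM⟩ : ∃ M : ℕ, M = 2 ^ n := ⟨_, rfl⟩
  obtain ⟨η, hη⟩ : ∃ η : ℝ, η = 1 / (4 * n ^ 2 * b ^ (M + 1)) := ⟨_, rfl⟩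
  have hb0 : 0 < b := by linarith
  have hη0 : 0 < η := by rw [hη]; positivity
  obtain ⟨κ, hκ⟩ : ∃ κ : ℝ, κ = η * c / 400 := ⟨_, rfl⟩
  have hκ0 : 0 < κ := by rw [hκ]; positivity
  obtain ⟨C1, hC10, hC1⟩ := Pool.Agent.Y159.PT.W_bound n hn2 κ hκ0
  -- large discriminants
  obtain ⟨D0, hD0⟩ : ∃ D0 : ℝ, ∀ D : ℝ, D0 ≤ D → 150 + (n : ℝ) ^ 2 ≤ D ^ η ∧
      (2 : ℝ) ^ (2 * n ^ 2) ≤ D ∧ Real.log D / Real.log 2 ≤ 1 / 2 * D ^ (2 * κ) := by
    have e1 : ∀ᶠ D : ℝ in Filter.atTop, 150 + (n : ℝ) ^ 2 ≤ D ^ η :=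
      (tendsto_rpow_atTop hη0).eventually_ge_atTop _
    have e2 : ∀ᶠ D : ℝ in Filter.atTop, (2 : ℝ) ^ (2 * n ^ 2) ≤ D := Filter.eventually_ge_atTop _
    have hl2 : 0 < Real.log 2 := Real.log_pos (by norm_num)
    have e3 : ∀ᶠ D : ℝ in Filter.atTop, Real.log D / Real.log 2 ≤ 1 / 2 * D ^ (2 * κ) := by
      have h1 := (isLittleO_log_rpow_atTop (show 0 < 2 * κ by positivity)).def
        (show 0 < Real.log 2 / 2 by positivity)
      filter_upwards [h1, Filter.eventually_ge_atTop 1] with D h2 h3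
      rw [Real.norm_of_nonneg (Real.log_nonneg h3), Real.norm_of_nonneg (by positivity)] at h2
      rw [div_le_iff₀ hl2]
      linarith
    obtain ⟨D0, hD0⟩ := Filter.eventually_atTop.1 (e1.and (e2.and e3))
    exact ⟨D0, hD0⟩
  obtain ⟨D1, hD1⟩ : ∃ D1 : ℝ, D1 = max 1 D0 := ⟨_, rfl⟩
  have hD11 : 1 ≤ D1 := by rw [hD1]; exact le_max_left _ _
  refine ⟨κ, 2 ^ (n + 1) * C1 * D1 ^ (2 * κ), hκ0, by positivity, ?_⟩
  intro L _ _ _ hn hG
  have hnG : Nat.card Gal(L/ℚ) = n := by rw [← hn]; exact IsGaloisGroup.card_eq_finrank _ ℚ L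
  obtain ⟨D, hD⟩ : ∃ D : ℝ, D = |(discr L : ℝ)| := ⟨_, rfl⟩
  have hDn : ((discr L).natAbs : ℝ) = D := by
    rw [hD, Nat.cast_natAbs]
    push_cast
    rfl
  have hDz : (discr L).natAbs ≠ 0 := Int.natAbs_ne_zero.2 (discr_ne_zero L)
  have hD_1 : 1 ≤ D := by
    rw [← hDn]
    exact_mod_cast Nat.one_le_iff_ne_zero.2 hDz
  have hD_0 : 0 < D := by linarith
  rw [← hD]
  obtain ⟨N, hN, hW⟩ := hC1 L hn
  rw [hDn] at hW
  set W := ∑ J ∈ FI L N, (1 + Real.log ((N : ℝ) / Ideal.absNorm J)) ^ n with hWd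
  set T : ℝ := (Nat.card {c : ClassGroup (𝓞 L) // c ^ l = 1} : ℝ) with hT
  have hT0 : 0 ≤ T := Nat.cast_nonneg _
  have hDpow : 1 ≤ D1 ^ (2 * κ) := Real.one_le_rpow hD11 (by positivity)
  have hDk : 0 < D ^ (1 / 2 - κ) := Real.rpow_pos_of_pos hD_0 _
  rcases lt_or_ge D D1 with hlt | hge
  · -- small discriminants
    have h1 : T ≤ W := by
      have h2 := class_le_n hn N hN
      refine le_trans ?_ h2
      rw [hT]
      exact_mod_cast Nat.card_le_card_of_injective _ Subtype.val_injective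
    have h3 : D ^ (1 / 2 + κ) ≤ D1 ^ (2 * κ) * D ^ (1 / 2 - κ) := by
      have e : D ^ (1 / 2 + κ) = D ^ (2 * κ) * D ^ (1 / 2 - κ) := by
        rw [← Real.rpow_add hD_0]
        congr 1
        ring
      rw [e]
      gcongr
    have h4 : (1 : ℝ) ≤ 2 ^ (n + 1) := one_le_pow₀ (by norm_num)
    calc T ≤ C1 * D ^ (1 / 2 + κ) := h1.trans hW
      _ ≤ C1 * (D1 ^ (2 * κ) * D ^ (1 / 2 - κ)) := by gcongr
      _ ≤ 2 ^ (n + 1) * (C1 * (D1 ^ (2 * κ) * D ^ (1 / 2 - κ))) :=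
          le_mul_of_one_le_left (by positivity) h4
      _ = _ := by ring
  · -- large discriminants
    obtain ⟨g1, g2, g3⟩ := hD0 D ((le_max_right _ _).trans (by rw [← hD1]; exact hge))
    -- the scales
    obtain ⟨S, hS⟩ : ∃ S : ℕ → ℝ, S = fun j => D ^ (η * b ^ j) := ⟨_, rfl⟩
    have hmono : Monotone S := by
      intro i j hij
      rw [hS]
      refine Real.rpow_le_rpow_of_exponent_le hD_1 ?_
      have : b ^ i ≤ b ^ j := pow_le_pow_right₀ (by linarith) hij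
      gcongr
    obtain ⟨j, hjM, hgap⟩ := gap (L := L) (M := M) (by rw [hnG, hM]) S hmono
    obtain ⟨t, ht⟩ : ∃ t : ℝ, t = S j := ⟨_, rfl⟩
    have ht' : S (j + 1) = t ^ b := by
      rw [ht, hS]
      show D ^ (η * b ^ (j + 1)) = (D ^ (η * b ^ j)) ^ b
      rw [← Real.rpow_mul hD_0.le, pow_succ, mul_assoc]
    rw [ht', ← ht] at hgap
    have htη : D ^ η ≤ t := by
      rw [ht, hS]
      refine Real.rpow_le_rpow_of_exponent_le hD_1 ?_
      have : 1 ≤ b ^ j := one_le_pow₀ (by linarith)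
      nlinarith
    have ht150 : 150 + (n : ℝ) ^ 2 ≤ t := g1.trans htη
    have hn4 : (4 : ℝ) ≤ (n : ℝ) ^ 2 := by nlinarith
    have ht1 : 1 ≤ t := by linarith
    have ht0 : 0 < t := by linarith
    have hnt : (n : ℝ) + 1 ≤ t := by
      have : (n : ℝ) ≤ (n : ℝ) ^ 2 := by nlinarith
      linarith
    have hntsq : (n : ℝ) ^ 2 + t ≤ t ^ 2 := by
      have h1 : (n : ℝ) ^ 2 ≤ t := by linarith
      have h2 : 2 * t ≤ t * t := by gcongr; linarith
      rw [sq t]
      linarith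
    have hlt1 : 1 ≤ Real.log t := by
      rw [Real.le_log_iff_exp_le ht0]
      have := Real.exp_one_lt_d9
      linarith
    obtain ⟨X, hX⟩ : ∃ X : ℝ, X = t ^ c := ⟨_, rfl⟩
    have hX1 : 1 < X := by rw [hX]; exact Real.one_lt_rpow (by linarith) (by linarith)
    have hX0 : 0 < X := by linarith
    have htsq : t ^ (2 : ℝ) ≤ t ^ b := Real.rpow_le_rpow_of_exponent_le ht1 (by linarith)
    rw [Real.rpow_two] at htsq
    have hsc := scale hn hA1 hA' hG hl (t := t) (t' := t ^ b) (X := X) ht1 ?_ ?_ hgap ?_ hX1 ?_ ?_ N hN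
    rotate_left
    · calc ((n : ℝ) + 1) * t ≤ t * t := by gcongr
        _ = t ^ 2 := (sq t).symm
        _ ≤ t ^ b := htsq
    · calc ((n : ℝ) ^ 2 + t) ^ n ≤ (t ^ 2) ^ n := by
            gcongr
        _ = t ^ ((2 * n : ℕ) : ℝ) := by rw [Real.rpow_natCast, pow_mul]
        _ ≤ t ^ b := by
            refine Real.rpow_le_rpow_of_exponent_le ht1 ?_
            rw [hb]
            push_cast
            have : 0 ≤ (l : ℝ) * n * (1 + c) := by positivity
            linarith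
    · rw [← hD]
      have h5 : t ^ b ≤ D ^ (1 / (4 * (n : ℝ) ^ 2)) := by
        rw [← ht', hS]
        refine Real.rpow_le_rpow_of_exponent_le hD_1 ?_
        have h6 : b ^ (j + 1) ≤ b ^ (M + 1) := pow_le_pow_right₀ (by linarith) (by omega)
        rw [hη]
        rw [one_div_mul_eq_div, div_le_div_iff₀ (by positivity) (by positivity), one_mul]
        nlinarith [mul_le_mul_of_nonneg_left h6 (show (0 : ℝ) ≤ 4 * n ^ 2 by positivity)]
      have h7 : (1 : ℝ) ≤ 2 * t ^ b := by nlinarith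
      calc (2 * t ^ b) ^ (n * (n - 1)) ≤ (2 * t ^ b) ^ (n ^ 2) := by
            refine pow_le_pow_right₀ h7 ?_
            rw [sq]
            exact Nat.mul_le_mul le_rfl (Nat.sub_le _ _)
        _ ≤ (2 * D ^ (1 / (4 * (n : ℝ) ^ 2))) ^ (n ^ 2) := by gcongr
        _ = 2 ^ (n ^ 2) * D ^ (1 / 4 : ℝ) := by
            rw [mul_pow, ← Real.rpow_natCast (D ^ _), ← Real.rpow_mul hD_0.le]
            congr 2
            push_cast
            field_simp
        _ < D := by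
            have h8 : (2 : ℝ) ^ (n ^ 2) ≤ D ^ (1 / 2 : ℝ) := by
              rw [← Real.sqrt_eq_rpow]
              refine Real.le_sqrt_of_sq_le ?_
              rw [← pow_mul, mul_comm]
              exact g2
            have hD1' : 1 < D := by
              have : (1 : ℝ) < 2 ^ (2 * n ^ 2) := one_lt_pow₀ (by norm_num) (by positivity)
              linarith
            calc (2 : ℝ) ^ (n ^ 2) * D ^ (1 / 4 : ℝ) ≤ D ^ (1 / 2 : ℝ) * D ^ (1 / 4 : ℝ) := by gcongr
              _ = D ^ (3 / 4 : ℝ) := by rw [← Real.rpow_add hD_0]; norm_num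
              _ < D ^ (1 : ℝ) := Real.rpow_lt_rpow_of_exponent_lt hD1' (by norm_num)
              _ = D := Real.rpow_one D
    · rw [hX, Real.log_rpow ht0, hc, Real.log_mul (by norm_num) ht0.ne']
      have hl2 : Real.log 2 ≤ Real.log t := Real.log_le_log (by norm_num) (by linarith)
      have h9 : 1 + (n : ℝ) ^ 2 * (Real.log 2 + Real.log t) ≤ 3 * (n : ℝ) ^ 2 * Real.log t := by
        nlinarith
      calc A * (1 + (n : ℝ) ^ 2 * (Real.log 2 + Real.log t)) ≤ A * (3 * (n : ℝ) ^ 2 * Real.log t) := by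
            gcongr
        _ = _ := by ring
    · rw [hX, ← pow_mul]
      have h10 : 150 * t ^ c ≤ t ^ (1 + c) := by
        rw [Real.rpow_add ht0, Real.rpow_one]
        gcongr
        linarith
      calc (150 * t ^ c) ^ (l * n) ≤ (t ^ (1 + c)) ^ (l * n) := by gcongr
        _ = t ^ ((1 + c) * ((l * n : ℕ) : ℝ)) := by
            rw [← Real.rpow_natCast, ← Real.rpow_mul ht0.le]
        _ ≤ t ^ b := by
            refine Real.rpow_le_rpow_of_exponent_le ht1 ?_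
            rw [hb]
            push_cast
            nlinarith
    -- conclusion
    have h11 : D ^ (2 * κ) ≤ X ^ (1 / 200 : ℝ) := by
      rw [hX, ← Real.rpow_mul ht0.le]
      calc D ^ (2 * κ) = (D ^ η) ^ (c * (1 / 200)) := by
            rw [← Real.rpow_mul hD_0.le]
            congr 1
            rw [hκ]
            ring
        _ ≤ t ^ (c * (1 / 200)) := by
            refine Real.rpow_le_rpow (by positivity) htη (by positivity)
    have h12 := omega_le hDz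
    rw [hDn] at h12
    have h13 : 1 / 2 * D ^ (2 * κ) ≤ X ^ (1 / 200 : ℝ) - (discr L).natAbs.primeFactors.card := by
      linarith
    have h14 : 1 / 2 * D ^ (2 * κ) * T ≤ 2 ^ n * (C1 * D ^ (1 / 2 + κ)) := by
      calc 1 / 2 * D ^ (2 * κ) * T ≤
            (X ^ (1 / 200 : ℝ) - (discr L).natAbs.primeFactors.card) * T := by gcongr
        _ ≤ 2 ^ n * W := hsc
        _ ≤ _ := by gcongr
    have h15 : D ^ (1 / 2 + κ) = D ^ (2 * κ) * D ^ (1 / 2 - κ) := by
      rw [← Real.rpow_add hD_0]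
      congr 1
      ring
    rw [h15] at h14
    have h16 : 0 < D ^ (2 * κ) := Real.rpow_pos_of_pos hD_0 _
    have h17 : T ≤ 2 ^ (n + 1) * C1 * D ^ (1 / 2 - κ) := by
      have h18 : D ^ (2 * κ) * T ≤ D ^ (2 * κ) * (2 ^ (n + 1) * C1 * D ^ (1 / 2 - κ)) := by
        rw [pow_succ]
        linarith
      exact le_of_mul_le_mul_left h18 h16
    refine h17.trans ?_
    calc 2 ^ (n + 1) * C1 * D ^ (1 / 2 - κ) ≤ 2 ^ (n + 1) * C1 * D ^ (1 / 2 - κ) * D1 ^ (2 * κ) :=
          le_mul_of_one_le_right (by positivity) hDpow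
      _ = _ := by ring

end Pool.Agent.K1H79.TOR
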