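import Pool.Agent.K1H79.TOR.Ht

/-! # Decomposition groups of the unramified primes -/

set_option autoImplicit false

namespace Pool.Agent.K1H79.TOR

open NumberField Pointwise Ideal

variable {L : Type} [Field L] [NumberField L] [IsGalois ℚ L]

theorem span_prime {p : ℕ} (hp : p.Prime) : (Ideal.span {(p : ℤ)}).IsMaximal :=
  PrincipalIdealRing.isMaximal_of_irreducible (Nat.prime_iff_prime_int.mp hp).irreducible

theorem span_ne_bot {p : ℕ} (hp : p.Prime) : Ideal.span {(p : ℤ)} ≠ ⊥ := by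
  rw [Ne, Ideal.span_singleton_eq_bot]
  exact_mod_cast hp.ne_zero

theorem mem_of_over {p : ℕ} {F : Type} [Field F] [NumberField F] (P : Ideal (𝓞 F))
    [P.LiesOver (Ideal.span {(p : ℤ)})] : ((p : ℕ) : 𝓞 F) ∈ P := by
  have h : P.LiesOver (Ideal.span {(p : ℤ)}) := inferInstance
  have h1 : (p : ℤ) ∈ P.under ℤ := by
    rw [← h.over]
    exact Ideal.mem_span_singleton_self _
  rw [Ideal.under_def, Ideal.mem_comap] at h1
  simpa using h1

/-- the ramification index at an unramified prime -/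
theorem ram_one {p : ℕ} (hp : p.Prime) (hd : ¬ (p : ℤ) ∣ discr L) (P : Ideal (𝓞 L)) [P.IsPrime]
    [P.LiesOver (Ideal.span {(p : ℤ)})] :
    (Ideal.span {(p : ℤ)}).ramificationIdxIn (𝓞 L) = 1 := by
  have hpZ : Prime (p : ℤ) := Nat.prime_iff_prime_int.1 hp
  have h1 := (not_dvd_discr_iff_forall_mem L (𝓞 L) hpZ).1 hd P inferInstance
    (by simpa using mem_of_over (p := p) P)
  rw [Ideal.ramificationIdxIn_eq_ramificationIdx (Ideal.span {(p : ℤ)}) P Gal(L/ℚ)]
  exact Ideal.ramificationIdx_eq_one P ℤ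

/-- the norm of a prime above an unramified prime -/
theorem norm_eq {p : ℕ} (hp : p.Prime) (hd : ¬ (p : ℤ) ∣ discr L) (P : Ideal (𝓞 L)) [P.IsPrime]
    [P.LiesOver (Ideal.span {(p : ℤ)})] :
    absNorm P = p ^ Nat.card (MulAction.stabilizer Gal(L/ℚ) P) := by
  have hm := span_prime hp
  have : Finite (ℤ ⧸ Ideal.span {(p : ℤ)}) := Ring.HasFiniteQuotients.finiteQuotient (span_ne_bot hp)
  rw [card_stabilizer_eq (Ideal.span {(p : ℤ)}) P, ram_one hp hd P, one_mul,
    inertiaDegIn_eq_inertiaDeg (Ideal.span {(p : ℤ)}) P Gal(L/ℚ), pow_inertiaDeg]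

/-- the decomposition groups of the unramified primes are cyclic -/
theorem stab_cyclic {p : ℕ} (hp : p.Prime) (hd : ¬ (p : ℤ) ∣ discr L) (P : Ideal (𝓞 L)) [P.IsPrime]
    [P.LiesOver (Ideal.span {(p : ℤ)})] :
    IsCyclic (MulAction.stabilizer Gal(L/ℚ) P) := by
  have hm := span_prime hp
  have : Finite (ℤ ⧸ Ideal.span {(p : ℤ)}) := Ring.HasFiniteQuotients.finiteQuotient (span_ne_bot hp)
  have hP0 : P ≠ ⊥ := Ideal.ne_bot_of_liesOver_of_ne_bot (span_ne_bot hp) P
  have hPm : P.IsMaximal := (inferInstance : P.IsPrime).isMaximal hP0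
  have hin : Nat.card (P.inertia Gal(L/ℚ)) = 1 := by
    rw [card_inertia_eq_ramificationIdxIn (Ideal.span {(p : ℤ)}) P, ram_one hp hd P]
  have hin2 : P.inertia Gal(L/ℚ) = ⊥ := Subgroup.card_eq_one.1 hin
  have hinj : Function.Injective (Ideal.Quotient.stabilizerHom P (Ideal.span {(p : ℤ)}) Gal(L/ℚ)) := by
    rw [← MonoidHom.ker_eq_bot_iff]
    have h1 := Ideal.Quotient.map_ker_stabilizer_subtype P (Ideal.span {(p : ℤ)}) Gal(L/ℚ)
    rw [hin2, Subgroup.map_eq_bot_iff_of_injective _ (Subgroup.subtype_injective _)] at h1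
    exact h1
  have hfin : Finite (𝓞 L ⧸ P) := Ring.HasFiniteQuotients.finiteQuotient hP0
  let _ : Field (𝓞 L ⧸ P) := Ideal.Quotient.field P
  let _ : Field (ℤ ⧸ Ideal.span {(p : ℤ)}) := Ideal.Quotient.field _
  have hc : IsCyclic ((𝓞 L ⧸ P) ≃ₐ[ℤ ⧸ Ideal.span {(p : ℤ)}] (𝓞 L ⧸ P)) := inferInstance
  exact isCyclic_of_injective _ hinj

/-- the primes with decomposition group in a normal subgroup `V` split completely in the fixed field
of `V` -/
theorem split {V : Subgroup Gal(L/ℚ)} [V.Normal] (F : Type) [Field F] [NumberField F] [Algebra F L]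
    [IsGaloisGroup V F L] {p : ℕ} (hp : p.Prime) (P : Ideal (𝓞 L)) [P.IsPrime]
    [P.LiesOver (Ideal.span {(p : ℤ)})] (hPV : MulAction.stabilizer Gal(L/ℚ) P ≤ V) :
    ∃ S : Finset (Ideal (𝓞 F)), S.card = Module.finrank ℚ F ∧
      ∀ Q ∈ S, Q.IsPrime ∧ absNorm Q = p := by
  classical
  have hm := span_prime hp
  have hinv : Algebra.IsInvariant (𝓞 F) (𝓞 L) V := by
    refine ⟨fun a ha => ?_⟩
    have hG : IsGaloisGroup V F L := inferInstance
    obtain ⟨b, hb⟩ := hG.isInvariant.isInvariant (a : L) fun g =>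
      congrArg (fun y : 𝓞 L => (y : L)) (ha g)
    have hb2 : IsIntegral ℤ b := by
      rw [← isIntegral_algebraMap_iff (algebraMap F L).injective, hb]
      exact RingOfIntegers.isIntegral_coe a
    exact ⟨⟨b, hb2⟩, RingOfIntegers.ext hb⟩
  have hcomm : SMulCommClass V (𝓞 F) (𝓞 L) := by
    refine ⟨fun g x y => ?_⟩
    have hG : SMulCommClass V F L := IsGaloisGroup.commutes
    have h1 := hG.smul_comm g (x : F) (y : L)
    refine RingOfIntegers.ext ?_
    have e1 : ((g • x • y : 𝓞 L) : L) = g • (x : F) • (y : L) := by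
      rw [Algebra.smul_def (x : F) (y : L)]
      rfl
    have e2 : ((x • g • y : 𝓞 L) : L) = (x : F) • g • (y : L) := by
      rw [Algebra.smul_def (x : F) (g • (y : L))]
      rfl
    rw [e1, e2, h1]
  have : Fintype (primesOver (Ideal.span {(p : ℤ)}) (𝓞 F)) :=
    (IsDedekindDomain.primesOver_finite (Ideal.span {(p : ℤ)}) (𝓞 F)).fintype
  -- the primes of `F`
  have hlo : ∀ g : Gal(L/ℚ), (g • P).LiesOver (Ideal.span {(p : ℤ)}) := fun g => inferInstance
  have hpr : ∀ g : Gal(L/ℚ), (g • P).IsPrime := fun g => inferInstance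
  have hund : ∀ g : Gal(L/ℚ), (g • P).under (𝓞 F) ∈ primesOver (Ideal.span {(p : ℤ)}) (𝓞 F) := by
    intro g
    refine ⟨inferInstance, ⟨?_⟩⟩
    rw [Ideal.under_under]
    exact (hlo g).over
  let f : Gal(L/ℚ) ⧸ V → primesOver (Ideal.span {(p : ℤ)}) (𝓞 F) := fun x =>
    ⟨(Quotient.out x • P).under (𝓞 F), hund _⟩
  have hf : Function.Injective f := by
    intro x y hxy
    have h1 : (Quotient.out x • P).under (𝓞 F) = (Quotient.out y • P).under (𝓞 F) :=
      congrArg Subtype.val hxy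
    obtain ⟨v, hv⟩ := Algebra.IsInvariant.exists_smul_of_under_eq (𝓞 F) (𝓞 L) V _ _ h1
    have h2 : (Quotient.out y)⁻¹ * (v.1 * Quotient.out x) ∈ MulAction.stabilizer Gal(L/ℚ) P := by
      rw [MulAction.mem_stabilizer_iff, mul_smul, inv_smul_eq_iff, hv, mul_smul]
      rfl
    have h3 := hPV h2
    rw [← Quotient.out_eq x, ← Quotient.out_eq y]
    symm
    refine QuotientGroup.eq.2 ?_
    have h4 : (Quotient.out y)⁻¹ * Quotient.out x =
        ((Quotient.out y)⁻¹ * v.1 * Quotient.out y)⁻¹ * ((Quotient.out y)⁻¹ * (v.1 * Quotient.out x)) := by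
      group
    rw [h4]
    refine V.mul_mem (V.inv_mem ?_) h3
    have h5 := ‹V.Normal›.conj_mem v.1 v.2 (Quotient.out y)⁻¹
    rwa [inv_inv] at h5
  have hcard : Module.finrank ℚ F ≤ Fintype.card (primesOver (Ideal.span {(p : ℤ)}) (𝓞 F)) := by
    have h1 : Module.finrank ℚ F = Nat.card (Gal(L/ℚ) ⧸ V) := by
      have e1 := Module.finrank_mul_finrank ℚ F L
      have e2 : Module.finrank F L = Nat.card V := (IsGaloisGroup.card_eq_finrank V F L).symm
      have e3 : Module.finrank ℚ L = Nat.card Gal(L/ℚ) := (IsGaloisGroup.card_eq_finrank _ ℚ L).symm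
      have e4 := Subgroup.card_eq_card_quotient_mul_card_subgroup V
      rw [e2, e3, e4] at e1
      exact Nat.eq_of_mul_eq_mul_right Nat.card_pos e1
    rw [h1]
    have : Fintype (Gal(L/ℚ) ⧸ V) := Fintype.ofFinite _
    rw [Nat.card_eq_fintype_card]
    exact Fintype.card_le_of_injective f hf
  have hsum := Ideal.sum_ramification_inertia_eq_finrank (R := ℤ) (S := 𝓞 F) (Ideal.span {(p : ℤ)})
  rw [RingOfIntegers.rank] at hsum
  have hpos : ∀ q : primesOver (Ideal.span {(p : ℤ)}) (𝓞 F),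
      1 ≤ q.1.ramificationIdx ℤ * q.1.inertiaDeg ℤ := fun q =>
    Nat.mul_pos (Ideal.ramificationIdx_pos _ _) (Ideal.inertiaDeg_pos _ _)
  have hone : ∀ q : primesOver (Ideal.span {(p : ℤ)}) (𝓞 F),
      q.1.ramificationIdx ℤ * q.1.inertiaDeg ℤ = 1 := by
    by_contra hcon
    push Not at hcon
    obtain ⟨q, hq⟩ := hcon
    have h1 : ∑ q : primesOver (Ideal.span {(p : ℤ)}) (𝓞 F), 1 <
        ∑ q : primesOver (Ideal.span {(p : ℤ)}) (𝓞 F), q.1.ramificationIdx ℤ * q.1.inertiaDeg ℤ := by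
      refine Finset.sum_lt_sum (fun q _ => hpos q) ⟨q, Finset.mem_univ _, ?_⟩
      have := hpos q
      omega
    rw [Finset.sum_const, Finset.card_univ, smul_eq_mul, mul_one, hsum] at h1
    omega
  refine ⟨Finset.univ.image fun q : primesOver (Ideal.span {(p : ℤ)}) (𝓞 F) => q.1, ?_, ?_⟩
  · rw [Finset.card_image_of_injective _ Subtype.val_injective, Finset.card_univ]
    refine le_antisymm ?_ hcard
    rw [← hsum]
    refine (le_of_eq ?_).trans (Finset.sum_le_sum fun q _ => hpos q)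
    rw [Finset.sum_const, Finset.card_univ, smul_eq_mul, mul_one]
  · intro Q hQ
    rw [Finset.mem_image] at hQ
    obtain ⟨q, -, rfl⟩ := hQ
    refine ⟨inferInstance, ?_⟩
    rw [← pow_inertiaDeg p q.1, Nat.eq_one_of_mul_eq_one_left (hone q), pow_one]

end Pool.Agent.K1H79.TOR
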