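import Pool.Agent.Y159.PT.Ev

/-! # The small-prime inequality for ideals of norm `p ^ m` (after `Pool.Agent.Y159.PT.ev_sep`) -/

set_option autoImplicit false

namespace Pool.Agent.K1H79.TOR

open NumberField Finset Pool.Agent.TH847.LS Pool.Agent.TH847.LG NumberField.InfinitePlace
  IntermediateField
open scoped Classical nonZeroDivisors

variable {K : Type} [Field K] [NumberField K]

/-- the small-prime inequality, with an abstract separation hypothesis -/
theorem ev_m {n m : ℕ} (hmn : m ≤ n) (hn : Module.finrank ℚ K = n) {l : ℕ} (hl : 1 ≤ l) (N : ℕ)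
    (hN : 2 ^ n * √|(discr K : ℝ)| < N) (G : Finset ℕ)
    (P J : {p // p ∈ G} → (Ideal (𝓞 K))⁰)
    (hG : ∀ p : {p // p ∈ G}, p.1.Prime ∧
      (P p : Ideal (𝓞 K)) * (J p : Ideal (𝓞 K)) = Ideal.span {((p.1 : ℕ) : 𝓞 K)} ∧
      Ideal.absNorm (P p : Ideal (𝓞 K)) = p.1 ^ m ∧
      Ideal.absNorm (J p : Ideal (𝓞 K)) = p.1 ^ (n - m))
    (hsep : ∀ p q : {p // p ∈ G}, p ≠ q → ∀ z : 𝓞 K, z ≠ 0 →
      Ideal.span {z} = (P q : Ideal (𝓞 K)) ^ l * (J p : Ideal (𝓞 K)) ^ l →
      (∀ w : InfinitePlace K, w (z : K) ≤ (150 * ((max p.1 q.1 : ℕ) : ℝ)) ^ l) → False) :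
    (G.card : ℝ) * (Nat.card {c : ClassGroup (𝓞 K) // c ^ l = 1} : ℝ) ≤
      ∑ J ∈ FI K N, (1 + Real.log ((N : ℝ) / Ideal.absNorm J)) ^ n := by
  have hn0 : 0 < n := by rw [← hn]; exact (Module.finrank_pos (R := ℚ) (M := K))
  have hnr : (0 : ℝ) < n := by exact_mod_cast hn0
  have hlr : (1 : ℝ) ≤ l := by exact_mod_cast hl
  have hA : ∀ c : {c : ClassGroup (𝓞 K) // c ^ l = 1}, ∃ (A : (Ideal (𝓞 K))⁰)
      (γ : 𝓞 K), ClassGroup.mk0 A = c.1 ∧
      (A : Ideal (𝓞 K)) ^ l = Ideal.span {γ} ∧ γ ≠ 0 ∧
      ∀ w : InfinitePlace K, |Lw w (γ : K)| ≤ 2 * l :=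
    fun c => exists_rep hl c.1 c.2
  choose A γ hA1 hA2 hA3 hA4 using hA
  have key := pack hn N hN ({p // p ∈ G} × {c : ClassGroup (𝓞 K) // c ^ l = 1})
    (fun i => A i.2 * P i.1) (by
      rintro ⟨p, c⟩ ⟨q, c'⟩ a b ha hb hab hw
      simp only [Submonoid.coe_mul] at hab
      have haK : (a : K) ≠ 0 := by exact_mod_cast ha
      have hbK : (b : K) ≠ 0 := by exact_mod_cast hb
      have hγK : (γ c : K) ≠ 0 := by exact_mod_cast hA3 c
      have hγK' : (γ c' : K) ≠ 0 := by exact_mod_cast hA3 c'
      have hpK : ((p.1 : ℕ) : K) ≠ 0 := by exact_mod_cast (hG p).1.ne_zero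
      have hpq : p = q := by
        by_contra hne
        -- the l-th power
        have e1 : Ideal.span {a ^ l * γ c'} * ((P q : Ideal (𝓞 K)) ^ l * (J p : Ideal (𝓞 K)) ^ l) =
            Ideal.span {b ^ l * γ c * (p.1 : 𝓞 K) ^ l} := by
          have e2 := congrArg (fun I => I ^ l * (J p : Ideal (𝓞 K)) ^ l) hab
          simp only [mul_pow, Ideal.span_singleton_pow, hA2] at e2
          rw [← Ideal.span_singleton_mul_span_singleton, ← Ideal.span_singleton_mul_span_singleton,
            ← Ideal.span_singleton_mul_span_singleton, ← Ideal.span_singleton_pow (p.1 : 𝓞 K),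
            ← (hG p).2.1, mul_pow]
          calc _ = Ideal.span {a ^ l} * (Ideal.span {γ c'} * (P q : Ideal (𝓞 K)) ^ l) *
                (J p : Ideal (𝓞 K)) ^ l := by ring
            _ = Ideal.span {b ^ l} * (Ideal.span {γ c} * (P p : Ideal (𝓞 K)) ^ l) *
                (J p : Ideal (𝓞 K)) ^ l := e2
            _ = _ := by ring
        have hden : a ^ l * γ c' ≠ 0 := mul_ne_zero (pow_ne_zero _ ha) (hA3 c')
        have hdvd : a ^ l * γ c' ∣ b ^ l * γ c * (p.1 : 𝓞 K) ^ l := by
          rw [← Ideal.span_singleton_le_span_singleton, ← e1]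
          exact Ideal.mul_le_left
        obtain ⟨z, hz⟩ := hdvd
        have hzspan : Ideal.span {z} = (P q : Ideal (𝓞 K)) ^ l * (J p : Ideal (𝓞 K)) ^ l := by
          rw [hz, ← Ideal.span_singleton_mul_span_singleton (a ^ l * γ c')] at e1
          have hne0 : Ideal.span {a ^ l * γ c'} ≠ (0 : Ideal (𝓞 K)) := by
            rw [Ne, Ideal.zero_eq_bot, Ideal.span_singleton_eq_bot]
            exact hden
          exact (mul_left_cancel₀ hne0 e1).symm
        have hz0 : z ≠ 0 := by
          rintro rfl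
          rw [mul_zero] at hz
          have : (b ^ l * γ c * (p.1 : 𝓞 K) ^ l) ≠ 0 := by
            refine mul_ne_zero (mul_ne_zero (pow_ne_zero _ hb) (hA3 c)) (pow_ne_zero _ ?_)
            exact_mod_cast (hG p).1.ne_zero
          exact this hz
        have hzK : (z : K) ≠ 0 := by exact_mod_cast hz0
        -- the norm of z
        have hnz : (Algebra.norm ℤ z).natAbs = (q.1 ^ m * p.1 ^ (n - m)) ^ l := by
          rw [← Ideal.absNorm_span_singleton, hzspan, map_mul, map_pow, map_pow,
            (hG q).2.2.1, (hG p).2.2.2, mul_pow]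
        have hnz' : |((Algebra.norm ℚ (z : K) : ℚ) : ℝ)| = (((q.1 ^ m * p.1 ^ (n - m)) ^ l : ℕ) : ℝ) := by
          rw [← Algebra.coe_norm_int, ← hnz, Nat.cast_natAbs]
          push_cast
          rfl
        set y := max p.1 q.1 with hy
        have hy0 : 0 < y := lt_of_lt_of_le (hG p).1.pos (le_max_left _ _)
        have hyr : (0 : ℝ) < y := by exact_mod_cast hy0
        have hnle : (q.1 ^ m * p.1 ^ (n - m)) ^ l ≤ (y ^ l) ^ n := by
          have h1 : q.1 ^ m * p.1 ^ (n - m) ≤ y ^ n := by
            calc q.1 ^ m * p.1 ^ (n - m) ≤ y ^ m * y ^ (n - m) := by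
                  gcongr
                  · exact le_max_right _ _
                  · exact le_max_left _ _
              _ = y ^ n := by
                  rw [← pow_add]
                  congr 1
                  omega
          calc (q.1 ^ m * p.1 ^ (n - m)) ^ l ≤ (y ^ n) ^ l := by gcongr
            _ = (y ^ l) ^ n := by rw [← pow_mul, ← pow_mul, mul_comm]
        -- the size of z at the places
        have hLz : ∀ w : InfinitePlace K, Lw w (z : K) ≤ 5 * l := by
          intro w
          have h1 : Lw w ((a ^ l * γ c' * z : 𝓞 K) : K) =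
              Lw w ((b ^ l * γ c * (p.1 : 𝓞 K) ^ l : 𝓞 K) : K) := by rw [hz]
          push_cast at h1
          rw [Lw_mul w (mul_ne_zero (pow_ne_zero _ haK) hγK') hzK,
            Lw_mul w (pow_ne_zero _ haK) hγK', Lw_mul w (mul_ne_zero (pow_ne_zero _ hbK) hγK)
              (pow_ne_zero _ hpK), Lw_mul w (pow_ne_zero _ hbK) hγK, Lw_pow, Lw_pow, Lw_pow,
            Lw_natCast, mul_zero, add_zero] at h1
          have h2 := abs_lt.mp (hw w)
          have h3 := abs_le.mp (hA4 c w)
          have h4 := abs_le.mp (hA4 c' w)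
          have h5 : (l : ℝ) * (Lw w (b : K) - Lw w (a : K)) ≤ l * 1 :=
            mul_le_mul_of_nonneg_left (by linarith) (by linarith)
          nlinarith
        have hwz : ∀ w : InfinitePlace K, w (z : K) ≤ (150 * y : ℝ) ^ l := by
          intro w
          have h1 := hLz w
          unfold Lw at h1
          rw [hnz', hn] at h1
          have hpos : (0 : ℝ) < (((q.1 ^ m * p.1 ^ (n - m)) ^ l : ℕ) : ℝ) := by
            have := mul_pos (pow_pos (hG q).1.pos m) (pow_pos (hG p).1.pos (n - m))
            exact_mod_cast pow_pos this l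
          have h2 : Real.log (((q.1 ^ m * p.1 ^ (n - m)) ^ l : ℕ) : ℝ) ≤ n * (l * Real.log y) := by
            have : (((q.1 ^ m * p.1 ^ (n - m)) ^ l : ℕ) : ℝ) ≤ ((y : ℝ) ^ l) ^ n := by
              exact_mod_cast hnle
            have h3 := Real.log_le_log hpos this
            rw [Real.log_pow, Real.log_pow] at h3
            exact h3
          have h3 : Real.log (((q.1 ^ m * p.1 ^ (n - m)) ^ l : ℕ) : ℝ) / n ≤ l * Real.log y := by
            rw [div_le_iff₀ hnr]
            linarith
          have h4 : Real.log (w (z : K)) ≤ Real.log ((150 * y : ℝ) ^ l) := by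
            rw [Real.log_pow, Real.log_mul (by norm_num) hyr.ne']
            have h5 : (5 : ℝ) ≤ Real.log 150 := by
              rw [Real.le_log_iff_exp_le (by norm_num)]
              have h6 : Real.exp 1 < 2.7182818286 := Real.exp_one_lt_d9
              have h7 : Real.exp 5 = Real.exp 1 ^ 5 := by
                rw [← Real.exp_nat_mul]; norm_num
              rw [h7]
              have h8 : Real.exp 1 ^ 5 ≤ (2.7182818286 : ℝ) ^ 5 := by
                gcongr
              refine h8.trans ?_
              norm_num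
            nlinarith
          exact (Real.log_le_log_iff (w_pos w hzK) (by positivity)).mp h4
        exact hsep p q hne z hz0 hzspan hwz
      subst hpq
      have hc : c = c' := by
        have hP0 : (P p : Ideal (𝓞 K)) ≠ 0 := nonZeroDivisors.coe_ne_zero _
        have e1 : Ideal.span {a} * (A c' : Ideal (𝓞 K)) =
            Ideal.span {b} * (A c : Ideal (𝓞 K)) := by
          rw [← mul_assoc, ← mul_assoc] at hab
          exact mul_right_cancel₀ hP0 hab
        have e2 : ClassGroup.mk0 (A c') = ClassGroup.mk0 (A c) := by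
          rw [ClassGroup.mk0_eq_mk0_iff]
          exact ⟨a, b, ha, hb, e1⟩
        rw [hA1, hA1] at e2
        exact Subtype.ext e2.symm
      rw [hc])
  rw [Fintype.card_prod, Fintype.card_coe] at key
  rw [Nat.card_eq_fintype_card]
  push_cast at key
  exact key



end Pool.Agent.K1H79.TOR
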