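import Mathlib

/-! # The group theoretic condition -/

set_option autoImplicit false

namespace Pool.Agent.K1H79.TOR

variable {G : Type*} [Group G]

/-- the roots of `z` -/
def Rts (z : G) : Set G := {g | z ∈ Subgroup.zpowers g}

/-- if `⟨z⟩` is normal then the set of the roots of `z` is invariant under conjugation -/
theorem rts_conj {z : G} (hz : ∀ x : G, x * z * x⁻¹ ∈ Subgroup.zpowers z) {g : G} (hg : g ∈ Rts z)
    (x : G) : x * g * x⁻¹ ∈ Rts z := by
  have h1 : x⁻¹ * z * x ∈ Subgroup.zpowers g := by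
    have h2 := hz x⁻¹
    rw [inv_inv] at h2
    exact (Subgroup.zpowers_le.2 hg) h2
  obtain ⟨k, hk⟩ := Subgroup.mem_zpowers_iff.1 h1
  refine Subgroup.mem_zpowers_iff.2 ⟨k, ?_⟩
  rw [conj_zpow, hk]
  group

theorem closure_normal {z : G} (hz : ∀ x : G, x * z * x⁻¹ ∈ Subgroup.zpowers z) :
    (Subgroup.closure (Rts z)).Normal := by
  refine ⟨fun g hg x => ?_⟩
  induction hg using Subgroup.closure_induction with
  | mem g hg => exact Subgroup.subset_closure (rts_conj hz hg x)
  | one => rw [mul_one, mul_inv_cancel]; exact Subgroup.one_mem _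
  | mul a b _ _ ha hb =>
    have : x * (a * b) * x⁻¹ = (x * a * x⁻¹) * (x * b * x⁻¹) := by group
    rw [this]
    exact Subgroup.mul_mem _ ha hb
  | inv a _ ha =>
    have : x * a⁻¹ * x⁻¹ = (x * a * x⁻¹)⁻¹ := by group
    rw [this]
    exact Subgroup.inv_mem _ ha

theorem grp [Finite G] (hG : ∀ z ∈ Subgroup.center G, (orderOf z).Prime → Subgroup.closure (Rts z) ≠ ⊤)
    (R : Subgroup G) [R.Normal] (hR : R ≠ ⊥) (hc : IsCyclic R) :
    ∃ H : Subgroup G, H.Normal ∧ H ≠ ⊤ ∧ R ≤ H ∧ ∀ g, R ≤ Subgroup.zpowers g → g ∈ H := by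
  obtain ⟨⟨r, hrR⟩, hr⟩ := hc.exists_generator
  have hRr : R = Subgroup.zpowers r := by
    apply le_antisymm
    · intro x hx
      obtain ⟨k, hk⟩ := Subgroup.mem_zpowers_iff.1 (hr ⟨x, hx⟩)
      exact Subgroup.mem_zpowers_iff.2 ⟨k, congrArg Subtype.val hk⟩
    · exact Subgroup.zpowers_le.2 hrR
  have hr1 : r ≠ 1 := by
    rintro rfl
    apply hR
    rw [hRr, Subgroup.zpowers_one_eq_bot]
  have hord : orderOf r ≠ 1 := by rwa [Ne, orderOf_eq_one_iff]
  obtain ⟨p, hp, hpd⟩ := Nat.exists_prime_and_dvd hord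
  obtain ⟨m, hm⟩ := hpd
  have hpos : 0 < orderOf r := orderOf_pos r
  obtain ⟨z, hz⟩ : ∃ z : G, z = r ^ m := ⟨_, rfl⟩
  have hzo : orderOf z = p := by
    have hm0 : m ≠ 0 := by
      rintro rfl
      rw [mul_zero] at hm
      omega
    rw [hz, orderOf_pow' _ hm0, hm, Nat.gcd_mul_left_left, Nat.mul_div_cancel _ (Nat.pos_of_ne_zero hm0)]
  have hzr : z ∈ Subgroup.zpowers r := by
    rw [hz]
    exact Subgroup.npow_mem_zpowers r m
  have hzn : ∀ x : G, x * z * x⁻¹ ∈ Subgroup.zpowers z := by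
    intro x
    have h1 : x * r * x⁻¹ ∈ R := ‹R.Normal›.conj_mem r hrR x
    rw [hRr] at h1
    obtain ⟨k, hk⟩ := Subgroup.mem_zpowers_iff.1 h1
    refine Subgroup.mem_zpowers_iff.2 ⟨k, ?_⟩
    rw [hz, ← conj_pow, ← hk, ← zpow_natCast, ← zpow_natCast, ← zpow_mul, ← zpow_mul, mul_comm]
  refine ⟨Subgroup.closure (Rts z), closure_normal hzn, ?_, ?_, ?_⟩
  · by_cases hzc : z ∈ Subgroup.center G
    · exact hG z hzc (by rw [hzo]; exact hp)
    · intro htop
      apply hzc
      have h1 : Subgroup.closure (Rts z) ≤ Subgroup.centralizer {z} := by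
        rw [Subgroup.closure_le]
        intro g hg
        obtain ⟨k, hk⟩ := Subgroup.mem_zpowers_iff.1 hg
        rw [SetLike.mem_coe, Subgroup.mem_centralizer_iff]
        intro y hy
        rw [Set.mem_singleton_iff] at hy
        rw [hy, ← hk]
        exact ((Commute.refl g).zpow_left k).eq
      rw [Subgroup.mem_center_iff]
      intro g
      have h2 : g ∈ Subgroup.centralizer {z} := h1 (by rw [htop]; trivial)
      exact (Subgroup.mem_centralizer_iff.1 h2 z rfl).symm
  · rw [hRr, Subgroup.zpowers_le]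
    exact Subgroup.subset_closure hzr
  · intro g hg
    refine Subgroup.subset_closure ?_
    exact hg (by rw [hRr]; exact hzr)

end Pool.Agent.K1H79.TOR
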