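import Mathlib
import Pool.Agent.TH847.LG.Disc

/-! # Small generators of the subfields of a Galois number field

`Sm X U` : the subgroup `U` of the Galois group is the stabiliser of an integer of `L` all of whose
conjugates are at most `X` in absolute value. -/

set_option autoImplicit false

namespace Pool.Agent.K1H79.TOR

open NumberField Polynomial

variable {L : Type} [Field L] [NumberField L]

/-- `U` is the stabiliser of an integer with all conjugates at most `X` -/
def Sm (X : ℝ) (U : Subgroup Gal(L/ℚ)) : Prop :=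
  ∃ a : 𝓞 L, (∀ g : Gal(L/ℚ), g • a = a ↔ g ∈ U) ∧ ∀ φ : L →+* ℂ, ‖φ (a : L)‖ ≤ X

theorem coe_smul (g : Gal(L/ℚ)) (a : 𝓞 L) : ((g • a : 𝓞 L) : L) = g (a : L) := rfl

theorem smul_nat (g : Gal(L/ℚ)) (k : ℕ) : g • (k : 𝓞 L) = k :=
  map_natCast (MulSemiringAction.toRingHom Gal(L/ℚ) (𝓞 L) g) k

/-- conjugates are bounded as well -/
theorem bd_smul {X : ℝ} {a : 𝓞 L} (h : ∀ φ : L →+* ℂ, ‖φ (a : L)‖ ≤ X) (g : Gal(L/ℚ))
    (φ : L →+* ℂ) : ‖φ ((g • a : 𝓞 L) : L)‖ ≤ X :=
  h (φ.comp (g : L →+* L))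

theorem Sm.mono {X Y : ℝ} {U : Subgroup Gal(L/ℚ)} (h : Sm X U) (hXY : X ≤ Y) : Sm Y U := by
  obtain ⟨a, h1, h2⟩ := h
  exact ⟨a, h1, fun φ => (h2 φ).trans hXY⟩

theorem Sm.nonneg {X : ℝ} {U : Subgroup Gal(L/ℚ)} (h : Sm X U) : 0 ≤ X := by
  obtain ⟨a, -, h2⟩ := h
  obtain ⟨φ⟩ : Nonempty (L →+* ℂ) := inferInstance
  exact (norm_nonneg _).trans (h2 φ)

theorem sm_top {X : ℝ} (h : 0 ≤ X) : Sm X (⊤ : Subgroup Gal(L/ℚ)) :=
  ⟨0, fun g => by simp, fun φ => by simpa using h⟩

/-- conjugate subgroups -/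
theorem Sm.conj {X : ℝ} {U V : Subgroup Gal(L/ℚ)} (h : Sm X U) (g : Gal(L/ℚ))
    (hV : ∀ x, x ∈ V ↔ g⁻¹ * x * g ∈ U) : Sm X V := by
  obtain ⟨a, h1, h2⟩ := h
  refine ⟨g • a, fun x => ?_, bd_smul h2 g⟩
  rw [hV, ← h1, mul_assoc, mul_smul, inv_smul_eq_iff, mul_smul]

/-- intersections -/
theorem Sm.inf {X : ℝ} {U V : Subgroup Gal(L/ℚ)} (hU : Sm X U) (hV : Sm X V) :
    Sm (((Nat.card Gal(L/ℚ) : ℕ) + 1) * X) (U ⊓ V) := by
  classical
  obtain ⟨a, h1, h2⟩ := hU
  obtain ⟨b, h3, h4⟩ := hV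
  have : Fintype Gal(L/ℚ) := Fintype.ofFinite _
  obtain ⟨k, hk, hk2⟩ : ∃ k : ℕ, k ≤ Nat.card Gal(L/ℚ) ∧
      ∀ g : Gal(L/ℚ), g • (a + k * b) = a + k * b → g ∈ U ⊓ V := by
    by_contra hcon
    push Not at hcon
    choose! f hf1 hf2 using hcon
    obtain ⟨i, hi, j, hj, hij, hfij⟩ : ∃ i ∈ Finset.range (Nat.card Gal(L/ℚ) + 1),
        ∃ j ∈ Finset.range (Nat.card Gal(L/ℚ) + 1), i ≠ j ∧ f i = f j := by
      refine Finset.exists_ne_map_eq_of_card_lt_of_maps_to (t := Finset.univ) ?_ (by simp)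
      rw [Finset.card_range, Finset.card_univ, Nat.card_eq_fintype_card]
      omega
    rw [Finset.mem_range] at hi hj
    have e1 := hf1 i (by omega)
    have e2 := hf1 j (by omega)
    rw [← hfij] at e2
    set g := f i with hg
    rw [smul_add, smul_mul'] at e1 e2
    rw [smul_nat] at e1 e2
    have e3 : ((i : 𝓞 L) - j) * (g • b - b) = 0 := by
      linear_combination e1 - e2
    have hij' : ((i : 𝓞 L) - j) ≠ 0 := sub_ne_zero.2 (by exact_mod_cast hij)
    have e4 : g • b = b := sub_eq_zero.1 ((mul_eq_zero.1 e3).resolve_left hij')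
    rw [e4] at e1
    have e5 : g • a = a := by linear_combination e1
    exact hf2 i (by omega) ⟨(h1 g).1 e5, (h3 g).1 e4⟩
  refine ⟨a + k * b, fun g => ⟨hk2 g, fun hg => ?_⟩, fun φ => ?_⟩
  · rw [smul_add, smul_mul', smul_nat, (h1 g).2 hg.1, (h3 g).2 hg.2]
  · have e : φ ((a + k * b : 𝓞 L) : L) = φ (a : L) + k * φ (b : L) := by
      push_cast
      simp
    rw [e]
    have hX : 0 ≤ X := (norm_nonneg _).trans (h2 φ)
    calc ‖φ (a : L) + k * φ (b : L)‖ ≤ ‖φ (a : L)‖ + k * ‖φ (b : L)‖ := by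
          refine (norm_add_le _ _).trans (le_of_eq ?_)
          rw [norm_mul, Complex.norm_natCast]
      _ ≤ X + (Nat.card Gal(L/ℚ) : ℕ) * X := by
          have hk' : (k : ℝ) ≤ (Nat.card Gal(L/ℚ) : ℕ) := by exact_mod_cast hk
          gcongr
          · exact h2 φ
          · exact h4 φ
      _ = _ := by ring

/-- subgroups containing a small one -/
theorem Sm.up {X : ℝ} (hX : 1 ≤ X) {U V : Subgroup Gal(L/ℚ)} (hU : Sm X U) (hUV : U ≤ V) :
    Sm (((Nat.card Gal(L/ℚ) : ℝ) ^ 2 + X) ^ Nat.card Gal(L/ℚ)) V := by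
  classical
  obtain ⟨a, h1, h2⟩ := hU
  have : Fintype Gal(L/ℚ) := Fintype.ofFinite _
  have : Fintype V := Fintype.ofFinite _
  set n := Nat.card Gal(L/ℚ) with hn
  obtain ⟨F, hF⟩ : ∃ F : Gal(L/ℚ) → (𝓞 L)[X], ∀ g, F g = ∏ v : V, (Polynomial.X - C ((g * v.1) • a)) :=
    ⟨_, fun _ => rfl⟩
  have hFm : ∀ g, (F g).Monic := fun g => by
    rw [hF]; exact monic_prod_of_monic _ _ fun v _ => monic_X_sub_C _
  have hFd : ∀ g, (F g).natDegree = Fintype.card V := fun g => by
    rw [hF, natDegree_prod_of_monic _ _ fun v _ => monic_X_sub_C _]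
    simp
  have hne : ∀ g, g ∉ V → F g ≠ F 1 := by
    intro g hg h
    have e1 : (F 1).eval a = 0 := by
      rw [hF, eval_prod]
      refine Finset.prod_eq_zero (Finset.mem_univ (1 : V)) ?_
      simp
    rw [← h, hF, eval_prod, Finset.prod_eq_zero_iff] at e1
    obtain ⟨v, -, hv⟩ := e1
    rw [eval_sub, eval_X, eval_C, sub_eq_zero] at hv
    have h5 := hUV ((h1 _).1 hv.symm)
    exact hg ((V.mul_mem_cancel_right v.2).1 h5)
  have hcard : Fintype.card V ≤ n := by
    rw [hn, Nat.card_eq_fintype_card]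
    exact Fintype.card_le_of_injective _ V.subtype_injective
  have hroots : ∀ g, g ∉ V → ∀ S : Finset ℕ, (∀ t ∈ S, (F g).eval (t : 𝓞 L) = (F 1).eval (t : 𝓞 L)) →
      S.card ≤ n := by
    intro g hg S hS
    have h0 : F g - F 1 ≠ 0 := sub_ne_zero.2 (hne g hg)
    have h3 : (S.image (fun t : ℕ => (t : 𝓞 L))) ⊆ (F g - F 1).roots.toFinset := by
      intro x hx
      rw [Finset.mem_image] at hx
      obtain ⟨t, ht, rfl⟩ := hx
      rw [Multiset.mem_toFinset, mem_roots h0, IsRoot, eval_sub, hS t ht, sub_self]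
    have h4 := Finset.card_le_card h3
    rw [Finset.card_image_of_injective _ Nat.cast_injective] at h4
    refine h4.trans ((Multiset.toFinset_card_le _).trans ((card_roots' _).trans ?_))
    refine (natDegree_sub_le _ _).trans ?_
    rw [hFd, hFd, max_self]
    exact hcard
  obtain ⟨t, ht, ht2⟩ : ∃ t : ℕ, t ≤ n ^ 2 ∧
      ∀ g : Gal(L/ℚ), (F g).eval (t : 𝓞 L) = (F 1).eval (t : 𝓞 L) → g ∈ V := by
    by_contra hcon
    push Not at hcon
    choose! f hf1 hf2 using hcon
    have hpig := Finset.exists_lt_card_fiber_of_mul_lt_card_of_maps_to (s := Finset.range (n ^ 2 + 1))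
      (t := Finset.univ) (f := f) (n := n) (by simp) (by
        rw [Finset.card_range, Finset.card_univ, ← Nat.card_eq_fintype_card, ← hn]
        nlinarith)
    obtain ⟨g, -, hg⟩ := hpig
    obtain ⟨t, ht⟩ := Finset.card_pos.1 (lt_of_le_of_lt (Nat.zero_le _) hg)
    rw [Finset.mem_filter, Finset.mem_range] at ht
    have h5 := hroots g (by rw [← ht.2]; exact hf2 t (by omega))
      {x ∈ Finset.range (n ^ 2 + 1) | f x = g} (fun s hs => by
      rw [Finset.mem_filter, Finset.mem_range] at hs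
      rw [← hs.2]
      exact hf1 s (by omega))
    omega
  have hcomp : ∀ g : Gal(L/ℚ), g • (F 1).eval (t : 𝓞 L) = (F g).eval (t : 𝓞 L) := by
    intro g
    rw [hF, hF, eval_prod, eval_prod, Finset.smul_prod']
    refine Finset.prod_congr rfl fun v _ => ?_
    simp only [eval_sub, eval_X, eval_C, one_mul]
    rw [smul_sub, smul_nat, mul_smul]
  refine ⟨(F 1).eval (t : 𝓞 L), fun g => ⟨fun h => ht2 g (by rw [← hcomp, h]), fun hg => ?_⟩, fun φ => ?_⟩
  · rw [hcomp, hF, hF, eval_prod, eval_prod]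
    refine Fintype.prod_equiv (Equiv.mulLeft ⟨g, hg⟩) _ _ fun v => ?_
    simp [mul_smul]
  · rw [hF, eval_prod]
    have e : φ ((∏ v : V, (Polynomial.X - C ((1 * v.1) • a)).eval (t : 𝓞 L) : 𝓞 L) : L) =
        ∏ v : V, ((t : ℂ) - φ ((v.1 • a : 𝓞 L) : L)) := by
      have e0 : ((∏ v : V, (Polynomial.X - C ((1 * v.1) • a)).eval (t : 𝓞 L) : 𝓞 L) : L) =
          ∏ v : V, (((Polynomial.X - C ((1 * v.1) • a)).eval (t : 𝓞 L) : 𝓞 L) : L) :=
        map_prod (algebraMap (𝓞 L) L) _ _
      rw [e0, map_prod]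
      refine Finset.prod_congr rfl fun v _ => ?_
      simp
    rw [e, norm_prod]
    have hb : ∀ v : V, ‖(t : ℂ) - φ ((v.1 • a : 𝓞 L) : L)‖ ≤ (n : ℝ) ^ 2 + X := by
      intro v
      refine (norm_sub_le _ _).trans (add_le_add ?_ (bd_smul h2 v.1 φ))
      rw [Complex.norm_natCast]
      exact_mod_cast ht
    calc ∏ v : V, ‖(t : ℂ) - φ ((v.1 • a : 𝓞 L) : L)‖ ≤ ∏ v : V, ((n : ℝ) ^ 2 + X) :=
          Finset.prod_le_prod (fun _ _ => norm_nonneg _) fun v _ => hb v
      _ = ((n : ℝ) ^ 2 + X) ^ Fintype.card V := by rw [Finset.prod_const, Finset.card_univ]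
      _ ≤ ((n : ℝ) ^ 2 + X) ^ n := by
          refine pow_le_pow_right₀ ?_ hcard
          nlinarith [sq_nonneg (n : ℝ)]

/-- a generator of `L` and the discriminant -/
theorem Sm.disc [IsGalois ℚ L] {X : ℝ} (h : Sm X (⊥ : Subgroup Gal(L/ℚ))) :
    |(discr L : ℝ)| ≤ (2 * X) ^ (Module.finrank ℚ L * (Module.finrank ℚ L - 1)) := by
  obtain ⟨a, h1, h2⟩ := h
  refine Pool.Agent.TH847.LG.disc_bound rfl a ?_ fun w => ?_
  · rw [← IsGalois.fixedField_fixingSubgroup (IntermediateField.adjoin ℚ {(a : L)})]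
    have e : (IntermediateField.adjoin ℚ {(a : L)}).fixingSubgroup = ⊥ := by
      rw [eq_bot_iff]
      intro g hg
      rw [← h1]
      refine RingOfIntegers.ext ?_
      rw [IntermediateField.mem_fixingSubgroup_iff] at hg
      exact hg _ (IntermediateField.mem_adjoin_simple_self ℚ _)
    rw [e, IntermediateField.fixedField_bot]
  · have := h2 w.embedding
    rwa [InfinitePlace.norm_embedding_eq] at this

/-- the discriminant of a subfield with a small generator -/
theorem Sm.disc_sub [IsGalois ℚ L] {X : ℝ} {V : Subgroup Gal(L/ℚ)} (h : Sm X V)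
    (F : Type) [Field F] [NumberField F] [Algebra F L] [IsGaloisGroup V F L] :
    |(discr F : ℝ)| ≤ (2 * X) ^ (Module.finrank ℚ F * (Module.finrank ℚ F - 1)) := by
  obtain ⟨a, h1, h2⟩ := h
  obtain ⟨b, hbL⟩ : ∃ b : 𝓞 F, algebraMap F L (b : F) = (a : L) := by
    have hG : IsGaloisGroup V F L := inferInstance
    obtain ⟨b, hb⟩ := hG.isInvariant.isInvariant (a : L) fun g =>
      congrArg (fun y : 𝓞 L => (y : L)) ((h1 g.1).2 g.2)
    have hb2 : IsIntegral ℤ b := by
      rw [← isIntegral_algebraMap_iff (algebraMap F L).injective, hb]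
      exact RingOfIntegers.isIntegral_coe a
    exact ⟨⟨b, hb2⟩, hb⟩
  refine Pool.Agent.TH847.LG.disc_bound rfl b ?_ fun w => ?_
  · rw [Field.primitive_element_iff_minpoly_natDegree_eq]
    have e1 : minpoly ℚ (b : F) = minpoly ℚ (a : L) := by
      rw [← hbL]
      exact (minpoly.algebraMap_eq (algebraMap F L).injective _).symm
    have hint : IsIntegral ℚ (a : L) := Algebra.IsIntegral.isIntegral _
    have e2 := IntermediateField.adjoin.finrank hint
    rw [e1, ← e2]
    have e3 := Module.finrank_mul_finrank ℚ (IntermediateField.adjoin ℚ {(a : L)}) L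
    have e4 := Module.finrank_mul_finrank ℚ F L
    have e5 : Module.finrank F L = Nat.card V := (IsGaloisGroup.card_eq_finrank V F L).symm
    have e6 : Module.finrank (IntermediateField.adjoin ℚ {(a : L)}) L = Nat.card V := by
      rw [← IsGalois.card_fixingSubgroup_eq_finrank]
      have e7 : (IntermediateField.adjoin ℚ {(a : L)}).fixingSubgroup = V := by
        ext g
        rw [← h1, IntermediateField.mem_fixingSubgroup_iff]
        constructor
        · intro hg
          exact RingOfIntegers.ext (hg _ (IntermediateField.mem_adjoin_simple_self ℚ _))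
        · intro hg x hx
          have hle : IntermediateField.adjoin ℚ {(a : L)} ≤ IntermediateField.fixedField (Subgroup.zpowers g) := by
            rw [IntermediateField.adjoin_simple_le_iff, IntermediateField.mem_fixedField_iff]
            intro f hf
            have h5 : f ∈ MulAction.stabilizer Gal(L/ℚ) a := by
              refine (Subgroup.zpowers_le.2 ?_) hf
              exact hg
            exact congrArg (fun y : 𝓞 L => (y : L)) h5
          exact (IntermediateField.mem_fixedField_iff _ _).1 (hle hx) g (Subgroup.mem_zpowers g)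
      rw [e7]
    rw [e6] at e3
    rw [e5] at e4
    have hpos : 0 < Nat.card V := Nat.card_pos
    have : Module.finrank ℚ (IntermediateField.adjoin ℚ {(a : L)}) * Nat.card V =
        Module.finrank ℚ F * Nat.card V := by
      rw [e4]
      exact e3
    exact Nat.eq_of_mul_eq_mul_right hpos this
  · obtain ⟨φ, hφ⟩ : ∃ φ : L →+* ℂ, φ.comp (algebraMap F L) = w.embedding := by
      let _ : Algebra F ℂ := w.embedding.toAlgebra
      have : Algebra.IsAlgebraic F L := Algebra.IsAlgebraic.tower_top (K := ℚ) F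
      let f : L →ₐ[F] ℂ := IsAlgClosed.lift
      exact ⟨f.toRingHom, by ext x; exact f.commutes x⟩
    have h5 := h2 φ
    rw [← hbL] at h5
    have h6 : φ (algebraMap F L (b : F)) = w.embedding (b : F) := by
      rw [← hφ]; rfl
    rw [h6, InfinitePlace.norm_embedding_eq] at h5
    exact h5

end Pool.Agent.K1H79.TOR
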