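import Pool.Agent.K1H79.TOR.Dec
import Pool.Agent.K1H79.TOR.Grp
import Pool.Agent.K1H79.TOR.Ht

/-! # The gap between the discriminants of the subfields -/

set_option autoImplicit false

namespace Pool.Agent.K1H79.TOR

open NumberField Pointwise

variable {L : Type} [Field L] [NumberField L]

/-- pigeonhole: a scale at which no subfield appears -/
theorem gap {M : ℕ} (hM : 2 ^ Nat.card Gal(L/ℚ) ≤ M) (T : ℕ → ℝ) (hT : Monotone T) :
    ∃ j ≤ M, ∀ U : Subgroup Gal(L/ℚ), Sm (T (j + 1)) U → Sm (T j) U := by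
  classical
  by_contra hcon
  push Not at hcon
  choose! f hf1 hf2 using hcon
  have hinj : Set.InjOn f (Finset.range (M + 1)) := by
    have key : ∀ i j, j ≤ M → i < j → f i ≠ f j := by
      intro i j hj hij h
      apply hf2 j hj
      rw [← h]
      exact (hf1 i (by omega)).mono (hT (by omega))
    intro i hi j hj h
    rw [Finset.coe_range, Set.mem_Iio] at hi hj
    rcases lt_trichotomy i j with h1 | h1 | h1
    · exact absurd h (key i j (by omega) h1)
    · exact h1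
    · exact absurd h.symm (key j i (by omega) h1)
  have : Finite Gal(L/ℚ) := inferInstance
  have : Fintype (Subgroup Gal(L/ℚ)) := Fintype.ofFinite _
  have : Fintype Gal(L/ℚ) := Fintype.ofFinite _
  have h1 : M + 1 ≤ Fintype.card (Subgroup Gal(L/ℚ)) := by
    have := Finset.card_le_card_of_injOn (s := Finset.range (M + 1)) (t := Finset.univ) f
      (fun _ _ => Finset.mem_univ _) hinj
    rwa [Finset.card_range, Finset.card_univ] at this
  have h2 : Fintype.card (Subgroup Gal(L/ℚ)) ≤ 2 ^ Nat.card Gal(L/ℚ) := by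
    rw [Nat.card_eq_fintype_card, ← Fintype.card_set]
    exact Fintype.card_le_of_injective (fun U : Subgroup Gal(L/ℚ) => (U : Set Gal(L/ℚ))) SetLike.coe_injective
  omega

/-- the compositum of the small subfields -/
theorem core {t t' : ℝ} (ht : 1 ≤ t) (h1 : ((Nat.card Gal(L/ℚ) : ℕ) + 1) * t ≤ t')
    (hgap : ∀ U : Subgroup Gal(L/ℚ), Sm t' U → Sm t U) :
    ∃ R : Subgroup Gal(L/ℚ), R.Normal ∧ Sm t R ∧ ∀ U : Subgroup Gal(L/ℚ), Sm t' U → R ≤ U := by
  classical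
  obtain ⟨R, hR, hmin⟩ : ∃ R : Subgroup Gal(L/ℚ), Sm t R ∧ ∀ U : Subgroup Gal(L/ℚ), Sm t U →
      Nat.card R ≤ Nat.card U := by
    have hex : ∃ k : ℕ, ∃ R : Subgroup Gal(L/ℚ), Sm t R ∧ Nat.card R = k :=
      ⟨_, ⊤, sm_top (by linarith), rfl⟩
    obtain ⟨R, hR1, hR2⟩ := Nat.find_spec hex
    refine ⟨R, hR1, fun U hU => ?_⟩
    rw [hR2]
    exact Nat.find_min' hex ⟨U, hU, rfl⟩
  have hle : ∀ U : Subgroup Gal(L/ℚ), Sm t U → R ≤ U := by
    intro U hU
    have h2 := hgap _ ((hR.inf hU).mono h1)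
    have h3 := hmin _ h2
    have h4 : R ⊓ U = R := Subgroup.eq_of_le_of_card_ge inf_le_left h3
    exact inf_eq_left.1 h4
  refine ⟨R, ⟨fun x hx g => ?_⟩, hR, fun U hU => hle U (hgap U hU)⟩
  -- the conjugate of `R` by `g⁻¹`
  obtain ⟨V, hV⟩ : ∃ V : Subgroup Gal(L/ℚ), V = R.map (MulAut.conj g⁻¹).toMonoidHom := ⟨_, rfl⟩
  have hmem : ∀ y, y ∈ V ↔ (g⁻¹)⁻¹ * y * g⁻¹ ∈ R := by
    intro y
    rw [hV, Subgroup.mem_map]
    constructor
    · rintro ⟨u, hu, rfl⟩
      have : (g⁻¹)⁻¹ * (MulAut.conj g⁻¹).toMonoidHom u * g⁻¹ = u := by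
        simp [mul_assoc]
      rw [this]
      exact hu
    · intro h
      exact ⟨_, h, by simp [mul_assoc]⟩
  have h5 := hle V (hR.conj g⁻¹ hmem)
  have h6 := (hmem x).1 (h5 hx)
  rwa [inv_inv] at h6

/-- the statement of `many` with the constant `A` -/
def Many (A : ℝ) : Prop := ∀ (F : Type) [Field F] [NumberField F] (X : ℝ),
    1 < X → A * (1 + Real.log |(discr F : ℝ)|) ≤ Real.log X → ∀ B : Finset ℕ,
    (∀ p : ℕ, p.Prime → (p : ℝ) ≤ X → p ∉ B → ∃ S : Finset (Ideal (𝓞 F)), 2 ≤ S.card ∧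
      ∀ Q ∈ S, Q.IsPrime ∧ Ideal.absNorm Q = p) → X ^ (1 / 200 : ℝ) ≤ B.card

open Classical in
theorem good_primes [IsGalois ℚ L] {A : ℝ} (hA1 : 1 ≤ A) (hA : Many A)
    (hG : ∀ z ∈ Subgroup.center Gal(L/ℚ), (orderOf z).Prime → Subgroup.closure (Rts z) ≠ ⊤)
    {t t' X : ℝ} (ht : 1 ≤ t)
    (hup : ((Nat.card Gal(L/ℚ) : ℝ) ^ 2 + t) ^ Nat.card Gal(L/ℚ) ≤ t')
    (hgap : ∀ U : Subgroup Gal(L/ℚ), Sm t' U → Sm t U) {R : Subgroup Gal(L/ℚ)} [R.Normal]
    (hR : R ≠ ⊥) (hRt : Sm t R) (hX1 : 1 < X)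
    (hX : A * (1 + (Nat.card Gal(L/ℚ) : ℝ) ^ 2 * Real.log (2 * t)) ≤ Real.log X) :
    ∃ (f : ℕ → Ideal (𝓞 L)) (B : Finset ℕ),
      X ^ (1 / 200 : ℝ) ≤ (B.card : ℝ) + (discr L).natAbs.primeFactors.card ∧
      ∀ p ∈ B, p.Prime ∧ (p : ℝ) ≤ X ∧ ¬ (p : ℤ) ∣ discr L ∧ (f p).IsPrime ∧
        (f p).LiesOver (Ideal.span {(p : ℤ)}) ∧ ¬ R ≤ MulAction.stabilizer Gal(L/ℚ) (f p) := by
  have hl2 : 0 ≤ Real.log (2 * t) := Real.log_nonneg (by linarith)
  have hX0 : 0 < X := by linarith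
  have hex : ∀ p : ℕ, ∃ P : Ideal (𝓞 L), p.Prime → P.IsPrime ∧ P.LiesOver (Ideal.span {(p : ℤ)}) := by
    intro p
    by_cases hp : p.Prime
    · have hm := span_prime hp
      obtain ⟨P⟩ : Nonempty (Ideal.primesOver (Ideal.span {(p : ℤ)}) (𝓞 L)) := inferInstance
      exact ⟨P.1, fun _ => ⟨inferInstance, inferInstance⟩⟩
    · exact ⟨⊥, fun h => absurd h hp⟩
  choose f hf using hex
  obtain ⟨U, hU⟩ : ∃ U : Finset ℕ, U = (Finset.range (⌊X⌋₊ + 1)).filter Nat.Prime := ⟨_, rfl⟩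
  have hUm : ∀ p, p ∈ U ↔ p.Prime ∧ (p : ℝ) ≤ X := by
    intro p
    rw [hU, Finset.mem_filter, Finset.mem_range, Nat.lt_succ_iff, Nat.le_floor_iff hX0.le, and_comm]
  obtain ⟨B, hB⟩ : ∃ B : Finset ℕ, B = U.filter (fun p : ℕ => ¬ (p : ℤ) ∣ discr L ∧
      ¬ R ≤ MulAction.stabilizer Gal(L/ℚ) (f p)) := ⟨_, rfl⟩
  refine ⟨f, B, ?_, ?_⟩
  swap
  · intro p hp
    rw [hB, Finset.mem_filter, hUm] at hp
    obtain ⟨⟨h1, h2⟩, h3, h4⟩ := hp
    exact ⟨h1, h2, h3, (hf p h1).1, (hf p h1).2, h4⟩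
  have hD0 : (discr L).natAbs ≠ 0 := Int.natAbs_ne_zero.2 (discr_ne_zero L)
  -- the primes outside of the two sets
  have hout : ∀ p : ℕ, p.Prime → (p : ℝ) ≤ X → p ∉ B ∪ (discr L).natAbs.primeFactors →
      ¬ (p : ℤ) ∣ discr L ∧ R ≤ MulAction.stabilizer Gal(L/ℚ) (f p) := by
    intro p hp hpX hpB
    rw [Finset.mem_union, not_or] at hpB
    have h1 : ¬ (p : ℤ) ∣ discr L := fun h => hpB.2 (Nat.mem_primeFactors.2
      ⟨hp, Int.natCast_dvd.1 h, hD0⟩)
    refine ⟨h1, ?_⟩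
    by_contra h2
    apply hpB.1
    rw [hB, Finset.mem_filter, hUm]
    exact ⟨⟨hp, hpX⟩, h1, h2⟩
  have hcard : ((B ∪ (discr L).natAbs.primeFactors).card : ℝ) ≤
      (B.card : ℝ) + (discr L).natAbs.primeFactors.card := by
    exact_mod_cast Finset.card_union_le _ _
  refine le_trans ?_ hcard
  by_cases hc : IsCyclic R
  · obtain ⟨H, hHn, hHt, hRH, hH⟩ := grp hG R hR hc
    have hSH : Sm t H := hgap _ ((hRt.up ht hRH).mono hup)
    let F := (FixedPoints.intermediateField H : IntermediateField ℚ L)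
    have hgal : IsGaloisGroup H F L := inferInstance
    have hdis := hSH.disc_sub F
    have hdeg : 2 ≤ Module.finrank ℚ F ∧ Module.finrank ℚ F ≤ Nat.card Gal(L/ℚ) := by
      have e1 := Module.finrank_mul_finrank ℚ F L
      have e2 : Module.finrank F L = Nat.card H := (IsGaloisGroup.card_eq_finrank H F L).symm
      have e3 : Module.finrank ℚ L = Nat.card Gal(L/ℚ) := (IsGaloisGroup.card_eq_finrank _ ℚ L).symm
      rw [e2, e3] at e1
      have hpos : 0 < Nat.card H := Nat.card_pos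
      have hne : Nat.card H ≠ Nat.card Gal(L/ℚ) := fun h => hHt (Subgroup.eq_top_of_card_eq H h)
      have hG0 : 0 < Nat.card Gal(L/ℚ) := Nat.card_pos
      constructor
      · rcases Nat.lt_or_ge (Module.finrank ℚ F) 2 with h | h
        · interval_cases h5 : Module.finrank ℚ F
          · rw [zero_mul] at e1; omega
          · rw [one_mul] at e1; exact absurd e1 hne
        · exact h
      · rw [← e1]
        exact Nat.le_mul_of_pos_right _ hpos
    refine hA F X hX1 ?_ _ ?_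
    · refine le_trans ?_ hX
      have h1 : Real.log |(discr F : ℝ)| ≤ (Nat.card Gal(L/ℚ) : ℝ) ^ 2 * Real.log (2 * t) := by
        have h2 : 0 < |(discr F : ℝ)| := abs_pos.2 (by exact_mod_cast discr_ne_zero F)
        refine (Real.log_le_log h2 hdis).trans ?_
        rw [Real.log_pow]
        refine mul_le_mul_of_nonneg_right ?_ hl2
        have h3 : Module.finrank ℚ F * (Module.finrank ℚ F - 1) ≤ Nat.card Gal(L/ℚ) ^ 2 := by
          rw [sq]
          exact Nat.mul_le_mul hdeg.2 ((Nat.sub_le _ _).trans hdeg.2)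
        exact_mod_cast h3
      have hA0 : 0 ≤ A := by linarith
      gcongr
    · intro p hp hpX hpB
      obtain ⟨h1, h2⟩ := hout p hp hpX hpB
      have hP1 := (hf p hp).1
      have hP2 := (hf p hp).2
      have hcy := stab_cyclic hp h1 (f p)
      obtain ⟨⟨g, hg⟩, hgen⟩ := hcy.exists_generator
      have hst : MulAction.stabilizer Gal(L/ℚ) (f p) = Subgroup.zpowers g := by
        apply le_antisymm
        · intro x hx
          obtain ⟨k, hk⟩ := Subgroup.mem_zpowers_iff.1 (hgen ⟨x, hx⟩)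
          exact Subgroup.mem_zpowers_iff.2 ⟨k, congrArg Subtype.val hk⟩
        · exact Subgroup.zpowers_le.2 hg
      have hgH : g ∈ H := hH g (by rw [← hst]; exact h2)
      obtain ⟨S, hS1, hS2⟩ := split (V := H) F hp (f p) (by
        rw [hst, Subgroup.zpowers_le]; exact hgH)
      exact ⟨S, by rw [hS1]; exact hdeg.1, hS2⟩
  · refine hA ℚ X hX1 ?_ _ ?_
    · rw [Rat.numberField_discr, Int.cast_one, abs_one, Real.log_one, add_zero]
      refine le_trans ?_ hX
      have hA0 : 0 ≤ A := by linarith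
      have : 0 ≤ (Nat.card Gal(L/ℚ) : ℝ) ^ 2 * Real.log (2 * t) := by positivity
      gcongr
      linarith
    · intro p hp hpX hpB
      obtain ⟨h1, h2⟩ := hout p hp hpX hpB
      have hP1 := (hf p hp).1
      have hP2 := (hf p hp).2
      have hcy := stab_cyclic hp h1 (f p)
      exfalso
      apply hc
      exact isCyclic_of_injective (Subgroup.inclusion h2) (Subgroup.inclusion_injective h2)

end Pool.Agent.K1H79.TOR
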