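import Pool.Agent.K1H79.TOR.Ht
import Pool.Agent.K1H79.TOR.Ev

/-! # Balanced integers and their relative norms

Two different primes `p, q` with primes `P, Q` above them with the same decomposition group `U`; a
generator of `(Q J)^l`, `P J = (p)`, gives an integer with stabiliser `U`. -/

set_option autoImplicit false

namespace Pool.Agent.K1H79.TOR

open NumberField Pointwise

variable {L : Type} [Field L] [NumberField L]

theorem smul_span (g : Gal(L/ℚ)) (z : 𝓞 L) :
    g • Ideal.span {z} = Ideal.span {g • z} := by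
  rw [Ideal.pointwise_smul_def, Ideal.map_span, Set.image_singleton]
  rfl

theorem sep {l : ℕ} (hl : 1 ≤ l) {U : Subgroup Gal(L/ℚ)} {p q : ℕ} (hp : p.Prime) (hq : q.Prime)
    (hpq : p ≠ q) {P Q J : Ideal (𝓞 L)} [Q.IsPrime] (hP0 : P ≠ ⊥)
    (hqQ : ((q : ℕ) : 𝓞 L) ∈ Q)
    (hPU : ∀ g ∈ U, g • P = P) (hQU : ∀ g : Gal(L/ℚ), g • Q = Q ↔ g ∈ U)
    (hPJ : P * J = Ideal.span {((p : ℕ) : 𝓞 L)}) {z : 𝓞 L}
    (hz : Ideal.span {z} = Q ^ l * J ^ l) {B : ℝ} (hB : 1 ≤ B)
    (hw : ∀ w : InfinitePlace L, w (z : L) ≤ B) : Sm (B ^ Nat.card Gal(L/ℚ)) U := by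
  classical
  have : Fintype U := Fintype.ofFinite _
  have hpz : ∀ g : Gal(L/ℚ), g • Ideal.span {((p : ℕ) : 𝓞 L)} = Ideal.span {((p : ℕ) : 𝓞 L)} := by
    intro g
    rw [smul_span, smul_nat]
  have hJU : ∀ g ∈ U, g • J = J := by
    intro g hg
    have h1 := hpz g
    rw [← hPJ, smul_mul', hPU g hg] at h1
    exact mul_left_cancel₀ (by rw [Ne, Ideal.zero_eq_bot]; exact hP0) h1
  obtain ⟨β, hβ⟩ : ∃ β : 𝓞 L, β = ∏ u : U, u.1 • z := ⟨_, rfl⟩
  have hβs : Ideal.span {β} = (Q ^ l * J ^ l) ^ Fintype.card U := by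
    rw [hβ, ← Ideal.prod_span_singleton]
    rw [Finset.prod_congr rfl (g := fun _ => Q ^ l * J ^ l) fun u _ => ?_, Finset.prod_const,
      Finset.card_univ]
    rw [← smul_span, hz, smul_mul', smul_pow', smul_pow', (hQU u.1).2 u.2, hJU u.1 u.2]
  refine ⟨β, fun g => ⟨fun hg => ?_, fun hg => ?_⟩, fun φ => ?_⟩
  · have h1 : g • Ideal.span {β} = Ideal.span {β} := by rw [smul_span, hg]
    rw [hβs, smul_pow', smul_mul', smul_pow', smul_pow'] at h1
    have hU0 : Fintype.card U ≠ 0 := Fintype.card_ne_zero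
    have h2 : Q ∣ (Q ^ l * J ^ l) ^ Fintype.card U :=
      ((dvd_pow_self Q (by omega)).trans (dvd_mul_right _ _)).trans (dvd_pow_self _ hU0)
    have hQ0 : Q ≠ ⊥ := by
      rintro rfl
      rw [Ideal.mem_bot] at hqQ
      exact hq.ne_zero (by exact_mod_cast hqQ)
    have hQp : Prime Q := Ideal.prime_of_isPrime hQ0 inferInstance
    rw [← h1] at h2
    rcases hQp.dvd_or_dvd (hQp.dvd_of_dvd_pow h2) with h3 | h3
    · have h4 : Q ∣ g • Q := hQp.dvd_of_dvd_pow h3
      have h5 : g • Q ≤ Q := Ideal.dvd_iff_le.1 h4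
      have hgQ : (g • Q).IsMaximal := by
        have h6 : (g • Q).IsPrime := inferInstance
        refine h6.isMaximal ?_
        intro h7
        apply hQ0
        have h8 := congrArg (fun I => g⁻¹ • I) h7
        simp only [inv_smul_smul] at h8
        rw [h8]
        rw [← Ideal.zero_eq_bot, smul_zero]
      have hQm : Q.IsMaximal := (inferInstance : Q.IsPrime).isMaximal hQ0
      exact (hQU g).1 (hgQ.eq_of_le hQm.ne_top h5)
    · have h4 : Q ∣ g • J := hQp.dvd_of_dvd_pow h3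
      have h5 : Q ∣ Ideal.span {((p : ℕ) : 𝓞 L)} := by
        rw [← hpz g, ← hPJ, smul_mul']
        exact h4.mul_left _
      have h6 : ((p : ℕ) : 𝓞 L) ∈ Q := Ideal.dvd_iff_le.1 h5 (Ideal.mem_span_singleton_self _)
      exfalso
      have hcop : IsCoprime (p : ℤ) (q : ℤ) :=
        Nat.isCoprime_iff_coprime.2 ((Nat.coprime_primes hp hq).2 hpq)
      obtain ⟨a, b, hab⟩ := hcop
      have h7 : ((a * p + b * q : ℤ) : 𝓞 L) ∈ Q := by
        push_cast
        exact Q.add_mem (Q.mul_mem_left _ h6) (Q.mul_mem_left _ hqQ)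
      rw [hab, Int.cast_one] at h7
      exact (inferInstance : Q.IsPrime).ne_top ((Ideal.eq_top_iff_one _).2 h7)
  · rw [hβ, Finset.smul_prod']
    refine Fintype.prod_equiv (Equiv.mulLeft ⟨g, hg⟩) _ _ fun v => ?_
    simp [mul_smul]
  · have hb : ∀ ψ : L →+* ℂ, ‖ψ (z : L)‖ ≤ B := fun ψ => by
      have := hw (InfinitePlace.mk ψ)
      rwa [InfinitePlace.apply] at this
    have e : φ (β : L) = ∏ u : U, φ ((u.1 • z : 𝓞 L) : L) := by
      have e0 : (β : L) = ∏ u : U, ((u.1 • z : 𝓞 L) : L) := by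
        rw [hβ]
        exact map_prod (algebraMap (𝓞 L) L) _ _
      rw [e0, map_prod]
    rw [e, norm_prod]
    calc ∏ u : U, ‖φ ((u.1 • z : 𝓞 L) : L)‖ ≤ ∏ u : U, B :=
          Finset.prod_le_prod (fun _ _ => norm_nonneg _) fun u _ => bd_smul hb u.1 φ
      _ = B ^ Fintype.card U := by rw [Finset.prod_const, Finset.card_univ]
      _ ≤ B ^ Nat.card Gal(L/ℚ) := by
          refine pow_le_pow_right₀ hB ?_
          have := Nat.card_le_card_of_injective _ U.subtype_injective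
          rwa [Nat.card_eq_fintype_card] at this

end Pool.Agent.K1H79.TOR
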