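import Pool.Agent.K1H79.TOR.Gap
import Pool.Agent.K1H79.TOR.Sep
import Pool.Agent.K1H79.TOR.Ev

/-! # The bound at one scale -/

set_option autoImplicit false

namespace Pool.Agent.K1H79.TOR

open NumberField Pointwise Pool.Agent.TH847.LS Pool.Agent.TH847.LG
open scoped nonZeroDivisors

variable {L : Type} [Field L] [NumberField L] [IsGalois ℚ L]

/-- a prime ideal above `p` and its cofactor -/
theorem cof {n : ℕ} (hn : Module.finrank ℚ L = n) {p : ℕ} (hp : p.Prime)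
    (hd : ¬ (p : ℤ) ∣ discr L) (P : Ideal (𝓞 L)) (h1 : P.IsPrime)
    (h2 : P.LiesOver (Ideal.span {(p : ℤ)})) :
    P ≠ ⊥ ∧ ∃ J : Ideal (𝓞 L), J ≠ ⊥ ∧ P * J = Ideal.span {((p : ℕ) : 𝓞 L)} ∧
      Ideal.absNorm P = p ^ Nat.card (MulAction.stabilizer Gal(L/ℚ) P) ∧
      Ideal.absNorm J = p ^ (n - Nat.card (MulAction.stabilizer Gal(L/ℚ) P)) := by
  have hm := span_prime hp
  have hP0 : P ≠ ⊥ := Ideal.ne_bot_of_liesOver_of_ne_bot (span_ne_bot hp) P
  have hpP := mem_of_over (p := p) P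
  have hdv : P ∣ Ideal.span {((p : ℕ) : 𝓞 L)} := by
    rw [Ideal.dvd_iff_le, Ideal.span_le, Set.singleton_subset_iff]
    exact hpP
  obtain ⟨J, hJ⟩ := hdv
  have h3 : Ideal.absNorm P * Ideal.absNorm J = p ^ n := by
    rw [← map_mul, ← hJ, Ideal.absNorm_span_natCast, RingOfIntegers.rank, hn]
  have h4 := norm_eq hp hd P
  have h5 : Nat.card (MulAction.stabilizer Gal(L/ℚ) P) ≤ n := by
    rw [← hn, ← IsGaloisGroup.card_eq_finrank Gal(L/ℚ) ℚ L]
    exact Nat.card_le_card_of_injective _ (Subgroup.subtype_injective _)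
  have h6 : Ideal.absNorm J = p ^ (n - Nat.card (MulAction.stabilizer Gal(L/ℚ) P)) := by
    rw [h4] at h3
    have h7 : p ^ n = p ^ Nat.card (MulAction.stabilizer Gal(L/ℚ) P) *
        p ^ (n - Nat.card (MulAction.stabilizer Gal(L/ℚ) P)) := by
      rw [← pow_add]
      congr 1
      omega
    rw [h7] at h3
    exact Nat.eq_of_mul_eq_mul_left (pow_pos hp.pos _) h3
  refine ⟨hP0, J, ?_, hJ.symm, h4, h6⟩
  rintro rfl
  rw [Ideal.absNorm_bot] at h6
  exact (pow_pos hp.pos _).ne h6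

theorem scale {n : ℕ} (hn : Module.finrank ℚ L = n) {A : ℝ} (hA1 : 1 ≤ A) (hA : Many A)
    (hG : ∀ z ∈ Subgroup.center Gal(L/ℚ), (orderOf z).Prime → Subgroup.closure (Rts z) ≠ ⊤)
    {l : ℕ} (hl : 1 ≤ l) {t t' X : ℝ} (ht : 1 ≤ t) (h1 : ((n : ℝ) + 1) * t ≤ t')
    (hup : ((n : ℝ) ^ 2 + t) ^ n ≤ t')
    (hgap : ∀ U : Subgroup Gal(L/ℚ), Sm t' U → Sm t U)
    (hD : (2 * t') ^ (n * (n - 1)) < |(discr L : ℝ)|) (hX1 : 1 < X)
    (hX : A * (1 + (n : ℝ) ^ 2 * Real.log (2 * t)) ≤ Real.log X)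
    (hXt : ((150 * X) ^ l) ^ n ≤ t') (N : ℕ) (hN : 2 ^ n * √|(discr L : ℝ)| < N) :
    (X ^ (1 / 200 : ℝ) - (discr L).natAbs.primeFactors.card) *
      (Nat.card {c : ClassGroup (𝓞 L) // c ^ l = 1} : ℝ) ≤
      2 ^ n * ∑ J ∈ FI L N, (1 + Real.log ((N : ℝ) / Ideal.absNorm J)) ^ n := by
  classical
  have hnG : Nat.card Gal(L/ℚ) = n := by rw [← hn]; exact IsGaloisGroup.card_eq_finrank _ ℚ L
  have hn0 : 0 < n := by rw [← hnG]; exact Nat.card_pos
  have htt' : t ≤ t' := by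
    refine le_trans ?_ h1
    have : (0 : ℝ) ≤ n := Nat.cast_nonneg n
    nlinarith
  obtain ⟨R, hRn, hRt, hRU⟩ := core (L := L) ht (by rw [hnG]; exact h1) hgap
  have hR : R ≠ ⊥ := by
    rintro rfl
    have h2 := (hRt.mono htt').disc
    rw [hn] at h2
    linarith
  obtain ⟨f, B, hB1, hB2⟩ := good_primes hA1 hA hG ht (by rw [hnG]; exact hup) hgap hR hRt hX1
    (by rw [hnG]; exact hX)
  set W := ∑ J ∈ FI L N, (1 + Real.log ((N : ℝ) / Ideal.absNorm J)) ^ n with hW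
  set T : ℝ := (Nat.card {c : ClassGroup (𝓞 L) // c ^ l = 1} : ℝ) with hT
  have hT0 : 0 ≤ T := Nat.cast_nonneg _
  -- one decomposition group
  have key : ∀ U : Subgroup Gal(L/ℚ),
      ((B.filter fun p => MulAction.stabilizer Gal(L/ℚ) (f p) = U).card : ℝ) * T ≤ W := by
    intro U
    obtain ⟨BU, hBU⟩ : ∃ BU : Finset ℕ, BU = B.filter fun p => MulAction.stabilizer Gal(L/ℚ) (f p) = U :=
      ⟨_, rfl⟩
    rw [← hBU]
    have hm : ∀ p : {p // p ∈ BU}, p.1 ∈ B ∧ MulAction.stabilizer Gal(L/ℚ) (f p.1) = U := by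
      rintro ⟨p, hp⟩
      rw [hBU, Finset.mem_filter] at hp
      exact hp
    have hc : ∀ p : {p // p ∈ BU}, f p.1 ≠ ⊥ ∧ ∃ J : Ideal (𝓞 L), J ≠ ⊥ ∧
        f p.1 * J = Ideal.span {((p.1 : ℕ) : 𝓞 L)} ∧
        Ideal.absNorm (f p.1) = p.1 ^ Nat.card U ∧ Ideal.absNorm J = p.1 ^ (n - Nat.card U) := by
      intro p
      obtain ⟨h3, h4⟩ := hm p
      obtain ⟨h5, -, h6, h7, h8, -⟩ := hB2 p.1 h3
      have h9 := cof hn h5 h6 (f p.1) h7 h8
      rw [h4] at h9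
      exact h9
    choose hf0 J hJ0 hJ1 hJ2 hJ3 using hc
    have hcardU : Nat.card U ≤ n := by
      rw [← hnG]
      exact Nat.card_le_card_of_injective _ (Subgroup.subtype_injective _)
    refine ev_m hcardU hn hl N hN BU (fun p => ⟨f p.1, mem_nonZeroDivisors_of_ne_zero (hf0 p)⟩)
      (fun p => ⟨J p, mem_nonZeroDivisors_of_ne_zero (hJ0 p)⟩)
      (fun p => ⟨(hB2 p.1 (hm p).1).1, hJ1 p, hJ2 p, hJ3 p⟩) ?_
    intro p q hpq z hz0 hz hw
    have hpB := hB2 p.1 (hm p).1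
    have hqB := hB2 q.1 (hm q).1
    have hqP := hqB.2.2.2.1
    have hqL := hqB.2.2.2.2.1
    have hmax : ((max p.1 q.1 : ℕ) : ℝ) ≤ X := by
      push_cast
      exact max_le hpB.2.1 hqB.2.1
    have hsm : Sm (((150 * X) ^ l) ^ Nat.card Gal(L/ℚ)) U := by
      refine sep hl hpB.1 hqB.1 (fun h => hpq (Subtype.ext h)) (P := f p.1) (Q := f q.1) (J := J p)
        (hf0 p) (mem_of_over (p := q.1) (f q.1)) ?_ ?_ (hJ1 p) hz (B := (150 * X) ^ l) ?_ ?_
      · intro g hg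
        rw [← (hm p).2] at hg
        exact hg
      · intro g
        rw [← (hm q).2]
        exact Iff.rfl
      · exact one_le_pow₀ (by linarith)
      · intro w
        refine (hw w).trans ?_
        gcongr
    rw [hnG] at hsm
    have h10 := hRU U (hsm.mono hXt)
    apply hpB.2.2.2.2.2
    rw [(hm p).2]
    exact h10
  have : Fintype (Subgroup Gal(L/ℚ)) := Fintype.ofFinite _
  have : Fintype Gal(L/ℚ) := Fintype.ofFinite _
  have hsum : (B.card : ℝ) = ∑ U : Subgroup Gal(L/ℚ),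
      ((B.filter fun p => MulAction.stabilizer Gal(L/ℚ) (f p) = U).card : ℝ) := by
    have h3 := Finset.card_eq_sum_card_fiberwise (s := B) (t := Finset.univ)
      (f := fun p => MulAction.stabilizer Gal(L/ℚ) (f p)) (fun _ _ => Finset.mem_univ _)
    exact_mod_cast h3
  have hW0 : 0 ≤ W := le_trans (mul_nonneg (Nat.cast_nonneg _) hT0) (key ⊥)
  have hfin : (B.card : ℝ) * T ≤ 2 ^ n * W := by
    rw [hsum, Finset.sum_mul]
    refine (Finset.sum_le_sum fun U _ => key U).trans ?_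
    rw [Finset.sum_const, Finset.card_univ, nsmul_eq_mul]
    have h2 : Fintype.card (Subgroup Gal(L/ℚ)) ≤ 2 ^ n := by
      rw [← hnG, Nat.card_eq_fintype_card, ← Fintype.card_set]
      exact Fintype.card_le_of_injective (fun U : Subgroup Gal(L/ℚ) => (U : Set Gal(L/ℚ)))
        SetLike.coe_injective
    have h3 : (Fintype.card (Subgroup Gal(L/ℚ)) : ℝ) ≤ 2 ^ n := by exact_mod_cast h2
    gcongr
  refine le_trans ?_ hfin
  refine mul_le_mul_of_nonneg_right ?_ hT0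
  linarith

end Pool.Agent.K1H79.TOR
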